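import Mathlib

set_option autoImplicit false

/-!
# Splaying against executions that restructure locally

Keys are natural numbers; a binary search tree is a `BinaryTree ℕ` whose symmetric order is
strictly increasing.  All notions below follow the problem file of `MP_c42954_lc`; an execution
comes with the list of its rotations.  The definitions used in the final theorem `result` are
`inorder`, `IsBST`, `depth`, `Rot`, `splayStep`, `splay`, `splayCost`, `RotSeq` and `Exec`.
-/

namespace Pool.Agent.Results.MP_c42954_lc.ClusteredExecutions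

open BinaryTree

/-- The keys of a tree in symmetric order. -/
def inorder : BinaryTree ℕ → List ℕ
  | .nil => []
  | .node a l r => inorder l ++ a :: inorder r

/-- Binary search trees: the symmetric order is strictly increasing. -/
def IsBST (t : BinaryTree ℕ) : Prop := (inorder t).Pairwise (· < ·)

/-- Depth of the key `x` (number of edges from the root), read off along the search path. -/
def depth (x : ℕ) : BinaryTree ℕ → ℕ
  | .nil => 0
  | .node a l r => if x = a then 0 else if x < a then depth x l + 1 else depth x r + 1

/-- `Rot a b t t'`: the tree `t'` arises from `t` by one rotation at the node `b`, whose parent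
is `a`. -/
inductive Rot (a b : ℕ) : BinaryTree ℕ → BinaryTree ℕ → Prop
  | atLeftChild (A B C : BinaryTree ℕ) :
      Rot a b (.node a (.node b A B) C) (.node b A (.node a B C))
  | atRightChild (A B C : BinaryTree ℕ) :
      Rot a b (.node a A (.node b B C)) (.node b (.node a A B) C)
  | inLeft (c : ℕ) {l l' : BinaryTree ℕ} (r : BinaryTree ℕ) :
      Rot a b l l' → Rot a b (.node c l r) (.node c l' r)
  | inRight (c : ℕ) (l : BinaryTree ℕ) {r r' : BinaryTree ℕ} :
      Rot a b r r' → Rot a b (.node c l r) (.node c l r')

/-- One splaying step at the key `x`.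
* `x` is the root (or absent): nothing happens.
* The parent of `x` is the root: rotate at `x` (zig).
* `x` has parent `y` and grandparent `z` on the same side: rotate at `y`, then at `x` (zig-zig).
* `x` has parent `y` and grandparent `z` on different sides: rotate at `x` twice (zig-zag).
* `x` lies deeper: the same step is carried out further down, inside the subtree holding `x`. -/
def splayStep (x : ℕ) : BinaryTree ℕ → BinaryTree ℕ
  | .nil => .nil
  | .node z l r =>
    if x = z then .node z l r
    else if x < z then
      match l with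
      | .nil => .node z .nil r
      | .node y a c =>
        if x = y then .node y a (.node z c r)
        else if x < y then
          match a with
          | .nil => .node z (.node y .nil c) r
          | .node w p q =>
            if x = w then .node w p (.node y q (.node z c r))
            else .node z (splayStep x l) r
        else
          match c with
          | .nil => .node z (.node y a .nil) r
          | .node w p q =>
            if x = w then .node w (.node y a p) (.node z q r)
            else .node z (splayStep x l) r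
    else
      match r with
      | .nil => .node z l .nil
      | .node y a c =>
        if x = y then .node y (.node z l a) c
        else if y < x then
          match c with
          | .nil => .node z l (.node y a .nil)
          | .node w p q =>
            if x = w then .node w (.node y (.node z l a) p) q
            else .node z l (splayStep x r)
        else
          match a with
          | .nil => .node z l (.node y .nil c)
          | .node w p q =>
            if x = w then .node w (.node z l p) (.node y q c)
            else .node z l (splayStep x r)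

/-- Splaying `x`: splaying steps at `x` are repeated until `x` is the root.  (Every step
lowers the depth of `x`, and a step does nothing once `x` is the root, so `depth x t` steps
are enough and more do no harm.) -/
def splay (x : ℕ) (t : BinaryTree ℕ) : BinaryTree ℕ := (splayStep x)^[depth x t] t

/-- `cost_splay(X, T)`: each request costs one plus the depth of the requested key. -/
def splayCost : List ℕ → BinaryTree ℕ → ℕ
  | [], _ => 0
  | x :: X, T => (1 + depth x T) + splayCost X (splay x T)

/-- `RotSeq P t t'`: the rotations recorded in the list `P`, performed one after another, turn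
`t` into `t'`; the entry `(a, b)` of `P` stands for a rotation at `b`, whose parent is `a`. -/
inductive RotSeq : List (ℕ × ℕ) → BinaryTree ℕ → BinaryTree ℕ → Prop
  | refl (t : BinaryTree ℕ) : RotSeq [] t t
  | step {a b : ℕ} {P : List (ℕ × ℕ)} {t u v : BinaryTree ℕ} :
      Rot a b t u → RotSeq P u v → RotSeq ((a, b) :: P) t v

/-- `Exec T X P c`: there is an execution for `(X, T)` of cost `c` whose rotations, in order, are
those recorded in the list `P`.  For the first request `x`, the rotations in `P` turn `T` into
`T'` and `x` is searched for in `T`, which costs `1 + P.length + depth x T`; then the remaining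
requests are served from `T'`. -/
inductive Exec : BinaryTree ℕ → List ℕ → List (ℕ × ℕ) → ℕ → Prop
  | nil (T : BinaryTree ℕ) : Exec T [] [] 0
  | cons {T T' : BinaryTree ℕ} {x : ℕ} {X : List ℕ} {P Q : List (ℕ × ℕ)} {c : ℕ} :
      RotSeq P T T' → Exec T' X Q c → Exec T (x :: X) (P ++ Q) (1 + P.length + depth x T + c)

/-! ## Positions along the search path -/

/-- `x` is found at depth `d`. -/
def At (x : ℕ) : ℕ → BinaryTree ℕ → Prop
  | _, .nil => False
  | 0, .node a _ _ => x = a
  | d + 1, .node a l r => (x < a ∧ At x d l) ∨ (a < x ∧ At x d r)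

theorem at_depth {x : ℕ} : ∀ {d : ℕ} {t : BinaryTree ℕ}, At x d t → depth x t = d
  | 0, .nil, h => by simp [At] at h
  | d + 1, .nil, h => by simp [At] at h
  | 0, .node a l r, h => by
      simp only [At] at h
      simp [depth, h]
  | d + 1, .node a l r, h => by
      simp only [At] at h
      rcases h with ⟨h1, h2⟩ | ⟨h1, h2⟩
      · have := at_depth h2
        have hne : x ≠ a := by omega
        simp [depth, hne, h1, this]
      · have := at_depth h2
        have hne : x ≠ a := by omega
        have hnl : ¬ x < a := by omega
        simp [depth, hne, hnl, this]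

theorem step_left {x a : ℕ} {t s : BinaryTree ℕ} {d : ℕ} (hx : x < a) (h : At x (d + 2) t) :
    splayStep x (.node a t s) = .node a (splayStep x t) s := by
  cases t with
  | nil => simp [At] at h
  | node b l r =>
    have hne : x ≠ a := by omega
    rcases h with ⟨h1, h2⟩ | ⟨h1, h2⟩
    · cases l with
      | nil => simp [At] at h2
      | node c u v =>
        have h3 : x ≠ c := by
          rcases h2 with ⟨h3, _⟩ | ⟨h3, _⟩ <;> omega
        have h4 : x ≠ b := by omega
        conv_lhs => rw [splayStep.eq_def]
        simp [hne, hx, h1, h3, h4]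
    · cases r with
      | nil => simp [At] at h2
      | node c u v =>
        have h3 : x ≠ c := by
          rcases h2 with ⟨h3, _⟩ | ⟨h3, _⟩ <;> omega
        have h4 : x ≠ b := by omega
        have h5 : ¬ x < b := by omega
        conv_lhs => rw [splayStep.eq_def]
        simp [hne, hx, h3, h4, h5]

theorem step_right {x a : ℕ} {t s : BinaryTree ℕ} {d : ℕ} (hx : a < x) (h : At x (d + 2) t) :
    splayStep x (.node a s t) = .node a s (splayStep x t) := by
  cases t with
  | nil => simp [At] at h
  | node b l r =>
    have hne : x ≠ a := by omega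
    have hnl : ¬ x < a := by omega
    rcases h with ⟨h1, h2⟩ | ⟨h1, h2⟩
    · cases l with
      | nil => simp [At] at h2
      | node c u v =>
        have h3 : x ≠ c := by
          rcases h2 with ⟨h3, _⟩ | ⟨h3, _⟩ <;> omega
        have h4 : x ≠ b := by omega
        have h5 : ¬ b < x := by omega
        conv_lhs => rw [splayStep.eq_def]
        simp [hne, hnl, h3, h4, h5]
    · cases r with
      | nil => simp [At] at h2
      | node c u v =>
        have h3 : x ≠ c := by
          rcases h2 with ⟨h3, _⟩ | ⟨h3, _⟩ <;> omega
        have h4 : x ≠ b := by omega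
        conv_lhs => rw [splayStep.eq_def]
        simp [hne, hnl, h1, h3, h4]

theorem step_root {x : ℕ} {t : BinaryTree ℕ} (h : At x 0 t) : splayStep x t = t := by
  cases t with
  | nil => simp [At] at h
  | node b l r =>
    simp only [At] at h
    rw [splayStep.eq_def]
    simp [h]

theorem iter_root {x : ℕ} {t : BinaryTree ℕ} (h : At x 0 t) (n : ℕ) :
    (splayStep x)^[n] t = t := by
  induction n with
  | zero => rfl
  | succ n ih => rw [Function.iterate_succ_apply, step_root h, ih]

/-! ## The two kinds of splaying steps as relations -/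

/-- The zig step. -/
inductive Zig (x : ℕ) : BinaryTree ℕ → BinaryTree ℕ → Prop
  | left (y : ℕ) (A B C : BinaryTree ℕ) : x < y →
      Zig x (.node y (.node x A B) C) (.node x A (.node y B C))
  | right (y : ℕ) (A B C : BinaryTree ℕ) : y < x →
      Zig x (.node y C (.node x B A)) (.node x (.node y C B) A)

/-- The zig-zig and zig-zag steps, anywhere on the search path of `x`. -/
inductive Dbl (x : ℕ) : BinaryTree ℕ → BinaryTree ℕ → Prop
  | ll (p g : ℕ) (A B C D : BinaryTree ℕ) : x < p → x < g →
      Dbl x (.node g (.node p (.node x A B) C) D) (.node x A (.node p B (.node g C D)))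
  | rr (p g : ℕ) (A B C D : BinaryTree ℕ) : p < x → g < x →
      Dbl x (.node g D (.node p C (.node x B A))) (.node x (.node p (.node g D C) B) A)
  | lr (p g : ℕ) (A B C D : BinaryTree ℕ) : p < x → x < g →
      Dbl x (.node g (.node p A (.node x B C)) D) (.node x (.node p A B) (.node g C D))
  | rl (p g : ℕ) (A B C D : BinaryTree ℕ) : x < p → g < x →
      Dbl x (.node g D (.node p (.node x C B) A)) (.node x (.node g D C) (.node p B A))
  | inL (a : ℕ) {l l' : BinaryTree ℕ} (r : BinaryTree ℕ) : x < a →
      Dbl x l l' → Dbl x (.node a l r) (.node a l' r)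
  | inR (a : ℕ) (l : BinaryTree ℕ) {r r' : BinaryTree ℕ} : a < x →
      Dbl x r r' → Dbl x (.node a l r) (.node a l r')

theorem zig_of_at {x : ℕ} {t : BinaryTree ℕ} (h : At x 1 t) :
    Zig x t (splayStep x t) ∧ At x 0 (splayStep x t) := by
  cases t with
  | nil => simp [At] at h
  | node a l r =>
    rcases h with ⟨h1, h2⟩ | ⟨h1, h2⟩
    · cases l with
      | nil => simp [At] at h2
      | node b u v =>
        simp only [At] at h2
        subst h2
        have e1 : x ≠ a := by omega
        have e : splayStep x (.node a (.node x u v) r) = .node x u (.node a v r) := by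
          rw [splayStep.eq_def]; simp [e1, h1]
        rw [e]
        exact ⟨.left a u v r h1, by simp [At]⟩
    · cases r with
      | nil => simp [At] at h2
      | node b u v =>
        simp only [At] at h2
        subst h2
        have e1 : x ≠ a := by omega
        have e2 : ¬ x < a := by omega
        have e : splayStep x (.node a l (.node x u v)) = .node x (.node a l u) v := by
          rw [splayStep.eq_def]; simp [e1, e2]
        rw [e]
        exact ⟨.right a v u l h1, by simp [At]⟩

theorem dbl_of_at {x : ℕ} : ∀ {d : ℕ} {t : BinaryTree ℕ}, At x (d + 2) t →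
    Dbl x t (splayStep x t) ∧ At x d (splayStep x t)
  | d, .nil, h => by simp [At] at h
  | 0, .node a l r, h => by
      rcases h with ⟨h1, h2⟩ | ⟨h1, h2⟩
      · cases l with
        | nil => simp [At] at h2
        | node b u v =>
          rcases h2 with ⟨h3, h4⟩ | ⟨h3, h4⟩
          · cases u with
            | nil => simp [At] at h4
            | node w p q =>
              simp only [At] at h4
              subst h4
              have e1 : x ≠ a := by omega
              have e2 : x ≠ b := by omega
              have e : splayStep x (.node a (.node b (.node x p q) v) r)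
                  = .node x p (.node b q (.node a v r)) := by
                rw [splayStep.eq_def]; simp [e1, e2, h1, h3]
              rw [e]
              exact ⟨.ll b a p q v r h3 h1, by simp [At]⟩
          · cases v with
            | nil => simp [At] at h4
            | node w p q =>
              simp only [At] at h4
              subst h4
              have e1 : x ≠ a := by omega
              have e2 : x ≠ b := by omega
              have e3 : ¬ x < b := by omega
              have e : splayStep x (.node a (.node b u (.node x p q)) r)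
                  = .node x (.node b u p) (.node a q r) := by
                rw [splayStep.eq_def]; simp [e1, e2, e3, h1]
              rw [e]
              exact ⟨.lr b a u p q r h3 h1, by simp [At]⟩
      · cases r with
        | nil => simp [At] at h2
        | node b u v =>
          rcases h2 with ⟨h3, h4⟩ | ⟨h3, h4⟩
          · cases u with
            | nil => simp [At] at h4
            | node w p q =>
              simp only [At] at h4
              subst h4
              have e1 : x ≠ a := by omega
              have e2 : x ≠ b := by omega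
              have e3 : ¬ b < x := by omega
              have e4 : ¬ x < a := by omega
              have e : splayStep x (.node a l (.node b (.node x p q) v))
                  = .node x (.node a l p) (.node b q v) := by
                rw [splayStep.eq_def]; simp [e1, e2, e3, e4]
              rw [e]
              exact ⟨.rl b a v q p l h3 h1, by simp [At]⟩
          · cases v with
            | nil => simp [At] at h4
            | node w p q =>
              simp only [At] at h4
              subst h4
              have e1 : x ≠ a := by omega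
              have e2 : x ≠ b := by omega
              have e4 : ¬ x < a := by omega
              have e : splayStep x (.node a l (.node b u (.node x p q)))
                  = .node x (.node b (.node a l u) p) q := by
                rw [splayStep.eq_def]; simp [e1, e2, h3, e4]
              rw [e]
              exact ⟨.rr b a q p u l h3 h1, by simp [At]⟩
  | d + 1, .node a l r, h => by
      rcases h with ⟨h1, h2⟩ | ⟨h1, h2⟩
      · rw [step_left h1 h2]
        obtain ⟨h3, h4⟩ := dbl_of_at h2
        exact ⟨.inL a r h1 h3, Or.inl ⟨h1, h4⟩⟩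
      · rw [step_right h1 h2]
        obtain ⟨h3, h4⟩ := dbl_of_at h2
        exact ⟨.inR a l h1 h3, Or.inr ⟨h1, h4⟩⟩

/-! ## Weights and potentials -/

/-- Total weight of the keys of a tree. -/
def wt (w : ℕ → ℝ) : BinaryTree ℕ → ℝ
  | .nil => 0
  | .node a l r => wt w l + w a + wt w r

/-- The weight of the subtree rooted at `x`. -/
noncomputable def swt (w : ℕ → ℝ) (x : ℕ) : BinaryTree ℕ → ℝ
  | .nil => 0
  | .node a l r => if x = a then wt w l + w a + wt w r else if x < a then swt w x l else swt w x r

/-- The potential: the sum over all nodes `a` of `F a (weight of the subtree at a)`. -/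
def pot (w : ℕ → ℝ) (F : ℕ → ℝ → ℝ) : BinaryTree ℕ → ℝ
  | .nil => 0
  | .node a l r => pot w F l + F a (wt w l + w a + wt w r) + pot w F r

/-- `S` is closed under taking ancestors in the tree. -/
def Closed (S : ℕ → Prop) : BinaryTree ℕ → Prop
  | .nil => True
  | .node a l r => (S a ∨ ∀ k ∈ inorder (.node a l r), ¬ S k) ∧ Closed S l ∧ Closed S r

/-- The local inequalities needed for the access lemma. -/
structure Good (V : ℝ → Prop) (S : ℕ → Prop) (w : ℕ → ℝ) (F : ℕ → ℝ → ℝ) (x : ℕ) : Prop where
  zero : V 0
  add : ∀ a b, V a → V b → V (a + b)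
  wv : ∀ a, V (w a)
  zz : ∀ p g A B C D, V A → V B → V C → V D → S p → S g →
      2 + F x (A + w x + B + w p + C + w g + D) + F p (B + w p + C + w g + D) + F g (C + w g + D)
       ≤ F x (A + w x + B) + F p (A + w x + B + w p + C)
          + F g (A + w x + B + w p + C + w g + D)
          + 3 * (Real.logb 2 (A + w x + B + w p + C + w g + D) - Real.logb 2 (A + w x + B))
  zg : ∀ p g A B C D, V A → V B → V C → V D → S p → S g →
      2 + F x (A + w p + B + w x + C + w g + D) + F p (A + w p + B) + F g (C + w g + D)
       ≤ F x (B + w x + C) + F p (A + w p + B + w x + C)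
          + F g (A + w p + B + w x + C + w g + D)
          + 3 * (Real.logb 2 (A + w p + B + w x + C + w g + D) - Real.logb 2 (B + w x + C))
  z : ∀ y A B C, V A → V B → V C → S y →
      F x (A + w x + B + w y + C) + F y (B + w y + C)
       ≤ F x (A + w x + B) + F y (A + w x + B + w y + C)
          + 3 * (Real.logb 2 (A + w x + B + w y + C) - Real.logb 2 (A + w x + B))

section Access

variable {V : ℝ → Prop} {S : ℕ → Prop} {w : ℕ → ℝ} {F : ℕ → ℝ → ℝ} {x : ℕ}

theorem Good.wt (h : Good V S w F x) : ∀ t, V (wt w t)
  | .nil => h.zero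
  | .node a l r => h.add _ _ (h.add _ _ (h.wt l) (h.wv a)) (h.wt r)

theorem closed_of {t : BinaryTree ℕ} (h : Closed S t) :
    ∀ {k}, k ∈ inorder t → S k → ∀ {a l r}, t = .node a l r → S a := by
  intro k hk hS a l r e
  subst e
  rcases h.1 with h1 | h1
  · exact h1
  · exact absurd hS (h1 k hk)

theorem dbl_inorder {t t' : BinaryTree ℕ} (h : Dbl x t t') : inorder t' = inorder t := by
  induction h with
  | ll p g A B C D h1 h2 => simp [inorder]
  | rr p g A B C D h1 h2 => simp [inorder]
  | lr p g A B C D h1 h2 => simp [inorder]
  | rl p g A B C D h1 h2 => simp [inorder]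
  | inL a r h1 h2 ih => simp [inorder, ih]
  | inR a l h1 h2 ih => simp [inorder, ih]

theorem dbl_wt {t t' : BinaryTree ℕ} (h : Dbl x t t') : wt w t' = wt w t := by
  induction h with
  | ll p g A B C D h1 h2 => simp only [wt]; ring
  | rr p g A B C D h1 h2 => simp only [wt]; ring
  | lr p g A B C D h1 h2 => simp only [wt]; ring
  | rl p g A B C D h1 h2 => simp only [wt]; ring
  | inL a r h1 h2 ih => simp only [wt, ih]
  | inR a l h1 h2 ih => simp only [wt, ih]

theorem dbl_mem {t t' : BinaryTree ℕ} (h : Dbl x t t') : x ∈ inorder t := by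
  induction h with
  | ll p g A B C D h1 h2 => simp [inorder]
  | rr p g A B C D h1 h2 => simp [inorder]
  | lr p g A B C D h1 h2 => simp [inorder]
  | rl p g A B C D h1 h2 => simp [inorder]
  | inL a r h1 h2 ih => simp [inorder, ih]
  | inR a l h1 h2 ih => simp [inorder, ih]

theorem dbl_closed {t t' : BinaryTree ℕ} (h : Dbl x t t') (hS : S x) (hc : Closed S t) :
    Closed S t' := by
  induction h with
  | ll p g A B C D h1 h2 =>
    have hg : S g := closed_of hc (k := x) (by simp [inorder]) hS rfl
    have hp : S p := closed_of hc.2.1 (k := x) (by simp [inorder]) hS rfl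
    obtain ⟨-, ⟨-, ⟨-, hA, hB⟩, hC⟩, hD⟩ := hc
    exact ⟨Or.inl hS, hA, Or.inl hp, hB, Or.inl hg, hC, hD⟩
  | rr p g A B C D h1 h2 =>
    have hg : S g := closed_of hc (k := x) (by simp [inorder]) hS rfl
    have hp : S p := closed_of hc.2.2 (k := x) (by simp [inorder]) hS rfl
    obtain ⟨-, hD, -, hC, -, hB, hA⟩ := hc
    exact ⟨Or.inl hS, ⟨Or.inl hp, ⟨Or.inl hg, hD, hC⟩, hB⟩, hA⟩
  | lr p g A B C D h1 h2 =>
    have hg : S g := closed_of hc (k := x) (by simp [inorder]) hS rfl
    have hp : S p := closed_of hc.2.1 (k := x) (by simp [inorder]) hS rfl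
    obtain ⟨-, ⟨-, hA, -, hB, hC⟩, hD⟩ := hc
    exact ⟨Or.inl hS, ⟨Or.inl hp, hA, hB⟩, Or.inl hg, hC, hD⟩
  | rl p g A B C D h1 h2 =>
    have hg : S g := closed_of hc (k := x) (by simp [inorder]) hS rfl
    have hp : S p := closed_of hc.2.2 (k := x) (by simp [inorder]) hS rfl
    obtain ⟨-, hD, -, ⟨-, hC, hB⟩, hA⟩ := hc
    exact ⟨Or.inl hS, ⟨Or.inl hg, hD, hC⟩, Or.inl hp, hB, hA⟩
  | inL a r h1 h2 ih =>
    obtain ⟨ha, hl, hr⟩ := hc
    refine ⟨?_, ih hl, hr⟩
    rcases ha with ha | ha
    · exact Or.inl ha
    · refine Or.inr ?_
      intro k hk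
      apply ha k
      simpa [inorder, dbl_inorder h2] using hk
  | inR a l h1 h2 ih =>
    obtain ⟨ha, hl, hr⟩ := hc
    refine ⟨?_, hl, ih hr⟩
    rcases ha with ha | ha
    · exact Or.inl ha
    · refine Or.inr ?_
      intro k hk
      apply ha k
      simpa [inorder, dbl_inorder h2] using hk

theorem dbl_pot {t t' : BinaryTree ℕ} (hG : Good V S w F x) (h : Dbl x t t') (hS : S x)
    (hc : Closed S t) :
    2 + pot w F t' ≤ pot w F t + 3 * (Real.logb 2 (swt w x t') - Real.logb 2 (swt w x t)) := by
  induction h with
  | ll p g A B C D h1 h2 =>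
    have hg : S g := closed_of hc (k := x) (by simp [inorder]) hS rfl
    have hp : S p := closed_of hc.2.1 (k := x) (by simp [inorder]) hS rfl
    have e1 : x ≠ g := by omega
    have e2 : x ≠ p := by omega
    have := hG.zz p g _ _ _ _ (hG.wt A) (hG.wt B) (hG.wt C) (hG.wt D) hp hg
    simp only [pot, swt, wt, e1, e2, h1, h2, if_true, if_false]
    have r1 : wt w A + w x + (wt w B + w p + (wt w C + w g + wt w D))
      = wt w A + w x + wt w B + w p + wt w C + w g + wt w D := by ring
    have r2 : wt w B + w p + (wt w C + w g + wt w D)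
      = wt w B + w p + wt w C + w g + wt w D := by ring
    rw [r1, r2]
    linarith
  | rr p g A B C D h1 h2 =>
    have hg : S g := closed_of hc (k := x) (by simp [inorder]) hS rfl
    have hp : S p := closed_of hc.2.2 (k := x) (by simp [inorder]) hS rfl
    have e1 : x ≠ g := by omega
    have e2 : x ≠ p := by omega
    have e3 : ¬ x < g := by omega
    have e4 : ¬ x < p := by omega
    have := hG.zz p g _ _ _ _ (hG.wt A) (hG.wt B) (hG.wt C) (hG.wt D) hp hg
    simp only [pot, swt, wt, e1, e2, e3, e4, if_true, if_false]
    have r1 : wt w D + w g + wt w C + w p + wt w B + w x + wt w A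
      = wt w A + w x + wt w B + w p + wt w C + w g + wt w D := by ring
    have r2 : wt w D + w g + wt w C + w p + wt w B
      = wt w B + w p + wt w C + w g + wt w D := by ring
    have r3 : wt w D + w g + wt w C = wt w C + w g + wt w D := by ring
    have r4 : wt w B + w x + wt w A = wt w A + w x + wt w B := by ring
    have r5 : wt w C + w p + (wt w A + w x + wt w B)
      = wt w A + w x + wt w B + w p + wt w C := by ring
    have r6 : wt w D + w g + (wt w A + w x + wt w B + w p + wt w C)
      = wt w A + w x + wt w B + w p + wt w C + w g + wt w D := by ring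
    rw [r1, r2, r3, r4, r5, r6]
    linarith
  | lr p g A B C D h1 h2 =>
    have hg : S g := closed_of hc (k := x) (by simp [inorder]) hS rfl
    have hp : S p := closed_of hc.2.1 (k := x) (by simp [inorder]) hS rfl
    have e1 : x ≠ g := by omega
    have e2 : x ≠ p := by omega
    have e3 : ¬ x < p := by omega
    have := hG.zg p g _ _ _ _ (hG.wt A) (hG.wt B) (hG.wt C) (hG.wt D) hp hg
    simp only [pot, swt, wt, e1, e2, h2, e3, if_true, if_false]
    have r1 : wt w A + w p + wt w B + w x + (wt w C + w g + wt w D)
      = wt w A + w p + wt w B + w x + wt w C + w g + wt w D := by ring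
    have r2 : wt w A + w p + (wt w B + w x + wt w C)
      = wt w A + w p + wt w B + w x + wt w C := by ring
    rw [r1, r2]
    linarith
  | rl p g A B C D h1 h2 =>
    have hg : S g := closed_of hc (k := x) (by simp [inorder]) hS rfl
    have hp : S p := closed_of hc.2.2 (k := x) (by simp [inorder]) hS rfl
    have e1 : x ≠ g := by omega
    have e2 : x ≠ p := by omega
    have e3 : ¬ x < g := by omega
    have := hG.zg p g _ _ _ _ (hG.wt A) (hG.wt B) (hG.wt C) (hG.wt D) hp hg
    simp only [pot, swt, wt, e1, e2, h1, e3, if_true, if_false]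
    have r1 : wt w D + w g + wt w C + w x + (wt w B + w p + wt w A)
      = wt w A + w p + wt w B + w x + wt w C + w g + wt w D := by ring
    have r2 : wt w D + w g + wt w C = wt w C + w g + wt w D := by ring
    have r3 : wt w B + w p + wt w A = wt w A + w p + wt w B := by ring
    have r4 : wt w C + w x + wt w B = wt w B + w x + wt w C := by ring
    have r5 : wt w B + w x + wt w C + w p + wt w A
      = wt w A + w p + wt w B + w x + wt w C := by ring
    have r6 : wt w D + w g + (wt w A + w p + wt w B + w x + wt w C)
      = wt w A + w p + wt w B + w x + wt w C + w g + wt w D := by ring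
    rw [r1, r2, r3, r4, r5, r6]
    linarith
  | inL a r h1 h2 ih =>
    have e1 : x ≠ a := by omega
    have := ih hc.2.1
    simp only [pot, swt, e1, h1, if_true, if_false, dbl_wt h2]
    linarith
  | inR a l h1 h2 ih =>
    have e1 : x ≠ a := by omega
    have e2 : ¬ x < a := by omega
    have := ih hc.2.2
    simp only [pot, swt, e1, e2, if_false, dbl_wt h2]
    linarith

theorem zig_inorder {t t' : BinaryTree ℕ} (h : Zig x t t') : inorder t' = inorder t := by
  cases h with
  | left y A B C h1 => simp [inorder]
  | right y A B C h1 => simp [inorder]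

theorem zig_wt {t t' : BinaryTree ℕ} (h : Zig x t t') : wt w t' = wt w t := by
  cases h with
  | left y A B C h1 => simp only [wt]; ring
  | right y A B C h1 => simp only [wt]; ring

theorem zig_closed {t t' : BinaryTree ℕ} (h : Zig x t t') (hS : S x) (hc : Closed S t) :
    Closed S t' := by
  cases h with
  | left y A B C h1 =>
    have hy : S y := closed_of hc (k := x) (by simp [inorder]) hS rfl
    obtain ⟨-, ⟨-, hA, hB⟩, hC⟩ := hc
    exact ⟨Or.inl hS, hA, Or.inl hy, hB, hC⟩
  | right y A B C h1 =>
    have hy : S y := closed_of hc (k := x) (by simp [inorder]) hS rfl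
    obtain ⟨-, hC, -, hB, hA⟩ := hc
    exact ⟨Or.inl hS, ⟨Or.inl hy, hC, hB⟩, hA⟩

theorem zig_pot {t t' : BinaryTree ℕ} (hG : Good V S w F x) (h : Zig x t t') (hS : S x)
    (hc : Closed S t) :
    pot w F t' ≤ pot w F t + 3 * (Real.logb 2 (wt w t) - Real.logb 2 (swt w x t)) := by
  cases h with
  | left y A B C h1 =>
    have hy : S y := closed_of hc (k := x) (by simp [inorder]) hS rfl
    have e1 : x ≠ y := by omega
    have := hG.z y _ _ _ (hG.wt A) (hG.wt B) (hG.wt C) hy
    simp only [pot, swt, wt, e1, h1, if_true, if_false]
    have r1 : wt w A + w x + (wt w B + w y + wt w C)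
      = wt w A + w x + wt w B + w y + wt w C := by ring
    rw [r1]
    linarith
  | right y A B C h1 =>
    have hy : S y := closed_of hc (k := x) (by simp [inorder]) hS rfl
    have e1 : x ≠ y := by omega
    have e3 : ¬ x < y := by omega
    have := hG.z y _ _ _ (hG.wt A) (hG.wt B) (hG.wt C) hy
    simp only [pot, swt, wt, e1, e3, if_true, if_false]
    have r1 : wt w C + w y + wt w B + w x + wt w A
      = wt w A + w x + wt w B + w y + wt w C := by ring
    have r2 : wt w C + w y + wt w B = wt w B + w y + wt w C := by ring
    have r3 : wt w B + w x + wt w A = wt w A + w x + wt w B := by ring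
    have r4 : wt w C + w y + (wt w A + w x + wt w B)
      = wt w A + w x + wt w B + w y + wt w C := by ring
    rw [r1, r2, r3, r4]
    linarith

theorem swt_root {t : BinaryTree ℕ} (h : At x 0 t) : swt w x t = wt w t := by
  cases t with
  | nil => simp [At] at h
  | node a l r =>
    simp only [At] at h
    simp [swt, wt, h]

/-- The access lemma. -/
theorem access (hG : Good V S w F x) (hS : S x) : ∀ {d : ℕ} {t : BinaryTree ℕ}, At x d t →
    Closed S t → ∀ n, d ≤ 2 * n →
    Closed S ((splayStep x)^[n] t) ∧ inorder ((splayStep x)^[n] t) = inorder t ∧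
      (d : ℝ) + pot w F ((splayStep x)^[n] t)
        ≤ pot w F t + 1 + 3 * (Real.logb 2 (wt w t) - Real.logb 2 (swt w x t))
  | 0, t, h, hc, n, _ => by
      rw [iter_root h, swt_root h]
      refine ⟨hc, rfl, ?_⟩
      push_cast
      linarith
  | 1, t, h, hc, n, hn => by
      obtain ⟨m, rfl⟩ : ∃ m, n = m + 1 := ⟨n - 1, by omega⟩
      obtain ⟨hz, h0⟩ := zig_of_at h
      rw [Function.iterate_succ_apply, iter_root h0]
      refine ⟨zig_closed hz hS hc, zig_inorder hz, ?_⟩
      have := zig_pot hG hz hS hc
      push_cast
      linarith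
  | d + 2, t, h, hc, n, hn => by
      obtain ⟨m, rfl⟩ : ∃ m, n = m + 1 := ⟨n - 1, by omega⟩
      obtain ⟨hz, h0⟩ := dbl_of_at h
      rw [Function.iterate_succ_apply]
      obtain ⟨i1, i2, i3⟩ := access hG hS h0 (dbl_closed hz hS hc) m (by omega)
      refine ⟨i1, i2.trans (dbl_inorder hz), ?_⟩
      have := dbl_pot hG hz hS hc
      rw [dbl_wt hz] at i3
      push_cast
      linarith

theorem at_of_mem : ∀ {t : BinaryTree ℕ}, IsBST t → x ∈ inorder t → At x (depth x t) t
  | .nil, _, h => by simp [inorder] at h
  | .node a l r, hb, h => by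
      simp only [IsBST, inorder, List.pairwise_append, List.pairwise_cons, List.mem_cons] at hb
      simp only [inorder, List.mem_append, List.mem_cons] at h
      obtain ⟨hl, ⟨ha, hr⟩, hlr⟩ := hb
      rcases h with h | h | h
      · have hlt : x < a := hlr x h a (Or.inl rfl)
        have hne : x ≠ a := by omega
        simp only [depth, hne, hlt, if_true, if_false]
        exact Or.inl ⟨hlt, at_of_mem hl h⟩
      · simp [depth, h, At]
      · have hlt : a < x := ha x h
        have hne : x ≠ a := by omega
        have hnl : ¬ x < a := by omega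
        simp only [depth, hne, hnl, if_false]
        exact Or.inr ⟨hlt, at_of_mem hr h⟩

theorem wt_nonneg (hw : ∀ a, 0 ≤ w a) : ∀ t, 0 ≤ wt w t
  | .nil => le_refl _
  | .node a l r => add_nonneg (add_nonneg (wt_nonneg hw l) (hw a)) (wt_nonneg hw r)

theorem le_swt (hw : ∀ a, 0 ≤ w a) : ∀ {d : ℕ} {t : BinaryTree ℕ}, At x d t → w x ≤ swt w x t
  | 0, .nil, h => by simp [At] at h
  | d + 1, .nil, h => by simp [At] at h
  | 0, .node a l r, h => by
      simp only [At] at h
      subst h
      simp only [swt, if_true]
      have := wt_nonneg hw l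
      have := wt_nonneg hw r
      linarith
  | d + 1, .node a l r, h => by
      rcases h with ⟨h1, h2⟩ | ⟨h1, h2⟩
      · have hne : x ≠ a := by omega
        simp only [swt, hne, h1, if_true, if_false]
        exact le_swt hw h2
      · have hne : x ≠ a := by omega
        have hnl : ¬ x < a := by omega
        simp only [swt, hne, hnl, if_false]
        exact le_swt hw h2

/-- The amortized cost of splaying one key. -/
theorem splay_amortized (hG : Good V S w F x) (hS : S x) (hw : ∀ a, 0 ≤ w a) (hx : 0 < w x)
    {t : BinaryTree ℕ} (hb : IsBST t) (hm : x ∈ inorder t) (hc : Closed S t) :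
    Closed S (splay x t) ∧ inorder (splay x t) = inorder t ∧
      (depth x t : ℝ) + pot w F (splay x t)
        ≤ pot w F t + 1 + 3 * (Real.logb 2 (wt w t) - Real.logb 2 (w x)) := by
  have hA := at_of_mem hb hm
  obtain ⟨h1, h2, h3⟩ := access hG hS hA hc (depth x t) (by omega)
  refine ⟨h1, h2, h3.trans ?_⟩
  have := Real.logb_le_logb_of_le (b := 2) (by norm_num) hx (le_swt hw hA)
  linarith

end Access

/-! ## The count of the nodes on the search paths of the requested keys -/

/-- The number of nodes which lie on the search path of some key of `X`. -/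
def steiner (X : List ℕ) : BinaryTree ℕ → ℕ
  | .nil => 0
  | .node a l r =>
    if X = [] then 0
    else 1 + steiner (X.filter (· < a)) l + steiner (X.filter (a < ·)) r

/-- The key `v` lies on the search path of some key of `X`. -/
def OnPath (X : List ℕ) (v : ℕ) : BinaryTree ℕ → Prop
  | .nil => False
  | .node a l r =>
    X ≠ [] ∧ (v = a ∨ (v < a ∧ OnPath (X.filter (· < a)) v l) ∨
      (a < v ∧ OnPath (X.filter (a < ·)) v r))

theorem steiner_nil_list : ∀ t, steiner [] t = 0
  | .nil => rfl
  | .node a l r => by simp [steiner]

theorem onPath_self {x : ℕ} : ∀ {X : List ℕ} {t : BinaryTree ℕ}, x ∈ X → IsBST t →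
    x ∈ inorder t → OnPath X x t
  | X, .nil, _, _, h => by simp [inorder] at h
  | X, .node a l r, hX, hb, h => by
      simp only [IsBST, inorder, List.pairwise_append, List.pairwise_cons, List.mem_cons] at hb
      simp only [inorder, List.mem_append, List.mem_cons] at h
      obtain ⟨hl, ⟨ha, hr⟩, hlr⟩ := hb
      refine ⟨List.ne_nil_of_mem hX, ?_⟩
      rcases h with h | h | h
      · have hlt : x < a := hlr x h a (Or.inl rfl)
        exact Or.inr (Or.inl ⟨hlt, onPath_self (by simp [hX, hlt]) hl h⟩)
      · exact Or.inl h
      · have hlt : a < x := ha x h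
        exact Or.inr (Or.inr ⟨hlt, onPath_self (by simp [hX, hlt]) hr h⟩)

theorem onPath_nil_list {v : ℕ} : ∀ t, ¬ OnPath [] v t
  | .nil => by simp [OnPath]
  | .node a l r => by simp [OnPath]

theorem closed_onPath {S : ℕ → Prop} : ∀ {X : List ℕ} {t : BinaryTree ℕ}, IsBST t →
    (∀ v ∈ inorder t, S v ↔ OnPath X v t) → Closed S t
  | X, .nil, _, _ => trivial
  | X, .node a l r, hb, hS => by
      simp only [IsBST, inorder, List.pairwise_append, List.pairwise_cons, List.mem_cons] at hb
      obtain ⟨hl, ⟨ha, hr⟩, hlr⟩ := hb
      have hal : ∀ v ∈ inorder l, v < a := fun v hv => hlr v hv a (Or.inl rfl)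
      by_cases hX : X = []
      · subst hX
        have h0 : ∀ v ∈ inorder (.node a l r), ¬ S v := fun v hv => by
          rw [hS v hv]; exact onPath_nil_list _
        refine ⟨Or.inr h0, ?_, ?_⟩
        · apply closed_onPath (X := []) hl
          intro v hv
          exact iff_of_false (h0 v (by simp [inorder, hv])) (onPath_nil_list _)
        · apply closed_onPath (X := []) hr
          intro v hv
          exact iff_of_false (h0 v (by simp [inorder, hv])) (onPath_nil_list _)
      · refine ⟨Or.inl ((hS a (by simp [inorder])).2 ⟨hX, Or.inl rfl⟩), ?_, ?_⟩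
        · apply closed_onPath (X := X.filter (· < a)) hl
          intro v hv
          rw [hS v (by simp [inorder, hv])]
          have h1 := hal v hv
          have h2 : v ≠ a := by omega
          have h3 : ¬ a < v := by omega
          simp [OnPath, hX, h1, h2, h3]
        · apply closed_onPath (X := X.filter (a < ·)) hr
          intro v hv
          rw [hS v (by simp [inorder, hv])]
          have h1 := ha v hv
          have h2 : v ≠ a := by omega
          have h3 : ¬ v < a := by omega
          simp [OnPath, hX, h1, h2, h3]

theorem rot_inorder {a b : ℕ} {t t' : BinaryTree ℕ} (h : Rot a b t t') :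
    inorder t' = inorder t := by
  induction h with
  | atLeftChild A B C => simp [inorder]
  | atRightChild A B C => simp [inorder]
  | inLeft c r h ih => simp [inorder, ih]
  | inRight c l h ih => simp [inorder, ih]

theorem filter_lt_lt {a b : ℕ} (h : b < a) (X : List ℕ) :
    (X.filter (· < a)).filter (· < b) = X.filter (· < b) := by
  rw [List.filter_filter]
  apply List.filter_congr
  intro x _
  by_cases hx : x < b
  · have : x < a := by omega
    simp [hx, this]
  · simp [hx]

theorem filter_gt_gt {a b : ℕ} (h : b < a) (X : List ℕ) :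
    (X.filter (b < ·)).filter (a < ·) = X.filter (a < ·) := by
  rw [List.filter_filter]
  apply List.filter_congr
  intro x _
  by_cases hx : a < x
  · have : b < x := by omega
    simp [hx, this]
  · simp [hx]

theorem filter_comm' {a b : ℕ} (X : List ℕ) :
    (X.filter (b < ·)).filter (· < a) = (X.filter (· < a)).filter (b < ·) := by
  rw [List.filter_filter, List.filter_filter]
  apply List.filter_congr
  intro x _
  rw [Bool.and_comm]

theorem steiner_rot {a b : ℕ} {t t' : BinaryTree ℕ} (h : Rot a b t t') :
    ∀ X : List ℕ, IsBST t → steiner X t ≤ steiner X t' + 1 := by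
  induction h with
  | atLeftChild A B C =>
    intro X hb
    have hba : b < a := by
      simp only [IsBST, inorder, List.pairwise_append] at hb
      exact hb.2.2 b (by simp) a (by simp)
    by_cases hX : X = []
    · subst hX; simp [steiner]
    · simp only [steiner, hX, if_false]
      rw [filter_lt_lt hba, filter_gt_gt hba, filter_comm']
      split_ifs with h1 h2 h2
      · have h3 : X.filter (a < ·) = [] := by
          rw [← filter_gt_gt hba, h2]; rfl
        rw [h3, steiner_nil_list]
        omega
      · omega
      · have h3 : X.filter (a < ·) = [] := by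
          rw [← filter_gt_gt hba, h2]; rfl
        have h4 : (X.filter (· < a)).filter (b < ·) = [] := by
          rw [← filter_comm', h2]; rfl
        rw [h3, h4, steiner_nil_list, steiner_nil_list]
        omega
      · omega
  | atRightChild A B C =>
    intro X hb
    have hba : a < b := by
      simp only [IsBST, inorder, List.pairwise_append, List.pairwise_cons] at hb
      exact hb.2.1.1 b (by simp)
    by_cases hX : X = []
    · subst hX; simp [steiner]
    · simp only [steiner, hX, if_false]
      rw [filter_gt_gt hba, filter_lt_lt hba, filter_comm']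
      split_ifs with h1 h2 h2
      · have h3 : X.filter (· < a) = [] := by
          rw [← filter_lt_lt hba, h2]; rfl
        rw [h3, steiner_nil_list]
        omega
      · omega
      · have h3 : X.filter (· < a) = [] := by
          rw [← filter_lt_lt hba, h2]; rfl
        have h4 : (X.filter (· < b)).filter (a < ·) = [] := by
          rw [h2]; rfl
        rw [h3, h4, steiner_nil_list, steiner_nil_list]
        omega
      · omega
  | inLeft c r h ih =>
    intro X hb
    simp only [IsBST, inorder, List.pairwise_append] at hb
    have := ih (X.filter (· < c)) hb.1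
    simp only [steiner]
    split_ifs <;> omega
  | inRight c l h ih =>
    intro X hb
    simp only [IsBST, inorder, List.pairwise_append, List.pairwise_cons] at hb
    have := ih (X.filter (c < ·)) hb.2.1.2
    simp only [steiner]
    split_ifs <;> omega

theorem steiner_cons (x : ℕ) : ∀ (X : List ℕ) (t : BinaryTree ℕ),
    steiner (x :: X) t ≤ steiner X t + 1 + depth x t
  | X, .nil => by simp [steiner]
  | X, .node a l r => by
      by_cases hX : X = []
      · subst hX
        simp only [steiner, depth, List.filter_cons, List.filter_nil, if_true]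
        rcases lt_trichotomy x a with h | h | h
        · have h1 : x ≠ a := by omega
          have h2 : ¬ a < x := by omega
          have := steiner_cons x [] l
          rw [steiner_nil_list] at this
          simp only [h, h1, h2, decide_true, decide_false, if_true, if_false]
          simp [steiner_nil_list]
          omega
        · subst h
          simp [steiner_nil_list]
        · have h1 : x ≠ a := by omega
          have h2 : ¬ x < a := by omega
          have := steiner_cons x [] r
          rw [steiner_nil_list] at this
          simp only [h, h1, h2, decide_true, decide_false, if_true, if_false]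
          simp [steiner_nil_list]
          omega
      · simp only [steiner, depth, List.filter_cons, hX, if_false]
        rcases lt_trichotomy x a with h | h | h
        · have h1 : x ≠ a := by omega
          have h2 : ¬ a < x := by omega
          have := steiner_cons x (X.filter (· < a)) l
          simp only [h, h1, h2, decide_true, decide_false, if_true, if_false]
          simp
          omega
        · subst h
          simp
        · have h1 : x ≠ a := by omega
          have h2 : ¬ x < a := by omega
          have := steiner_cons x (X.filter (a < ·)) r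
          simp only [h, h1, h2, decide_true, decide_false, if_true, if_false]
          simp
          omega

theorem rotSeq_inorder {P : List (ℕ × ℕ)} {t t' : BinaryTree ℕ} (h : RotSeq P t t') :
    inorder t' = inorder t := by
  induction h with
  | refl t => rfl
  | step h _ ih => rw [ih, rot_inorder h]

theorem steiner_rotSeq {P : List (ℕ × ℕ)} {t t' : BinaryTree ℕ} (h : RotSeq P t t') :
    ∀ X : List ℕ, IsBST t → steiner X t ≤ steiner X t' + P.length := by
  induction h with
  | refl t => simp
  | step h _ ih =>
    intro X hb
    have h1 := steiner_rot h X hb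
    have h2 := ih X (by rw [IsBST, rot_inorder h]; exact hb)
    simp only [List.length_cons]
    omega

/-- Every execution costs at least the number of nodes which lie on the search paths in the
initial tree. -/
theorem steiner_le_cost {T : BinaryTree ℕ} {X : List ℕ} {P : List (ℕ × ℕ)} {c : ℕ}
    (h : Exec T X P c) : IsBST T → steiner X T ≤ c := by
  induction h with
  | nil T => intro _; rw [steiner_nil_list]
  | @cons T T' x X P Q c h1 h2 ih =>
    intro hb
    have a1 := steiner_cons x X T
    have a2 := steiner_rotSeq h1 X hb
    have a3 := ih (by rw [IsBST, rotSeq_inorder h1]; exact hb)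
    omega

/-! ## Logarithms -/

theorem lg_mono {a b : ℝ} (ha : 0 < a) (h : a ≤ b) : Real.logb 2 a ≤ Real.logb 2 b :=
  Real.logb_le_logb_of_le (by norm_num) ha h

theorem lg_add {a b c : ℝ} (ha : 0 < a) (hb : 0 < b) (h : a + b ≤ c) :
    Real.logb 2 a + Real.logb 2 b + 2 ≤ 2 * Real.logb 2 c := by
  have hc : 0 < c := by linarith
  have h1 : a * b ≤ (c / 2) ^ 2 := by nlinarith [sq_nonneg (a - b)]
  have h2 := lg_mono (mul_pos ha hb) h1
  rw [Real.logb_mul ha.ne' hb.ne', Real.logb_pow, Real.logb_div hc.ne' (by norm_num),
    Real.logb_self_eq_one (by norm_num)] at h2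
  push_cast at h2
  linarith

/-! ## The potential for clustered executions -/

open Classical in
/-- The local potential: `log₂ (weight of the subtree at a) - log₂ (weight of a)`, for `a` in `S`. -/
noncomputable def Fc (S : ℕ → Prop) (w : ℕ → ℝ) (a : ℕ) (s : ℝ) : ℝ :=
  if S a then Real.logb 2 s - Real.logb 2 (w a) else 0

theorem good_Fc {S : ℕ → Prop} {w : ℕ → ℝ} (hw : ∀ a, 0 < w a) {x : ℕ} (hS : S x) :
    Good (fun r => 0 ≤ r) S w (Fc S w) x where
  zero := le_refl _
  add := fun a b ha hb => add_nonneg ha hb
  wv := fun a => (hw a).le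
  zz := by
    intro p g A B C D hA hB hC hD hp hg
    have hx := hw x
    have h1 := hw p
    have h2 := hw g
    simp only [Fc, hS, hp, hg, if_true]
    have k1 := lg_mono (a := B + w p + C + w g + D) (b := A + w x + B + w p + C + w g + D)
      (by linarith) (by linarith)
    have k2 := lg_mono (a := A + w x + B) (b := A + w x + B + w p + C)
      (by linarith) (by linarith)
    have k3 := lg_add (a := A + w x + B) (b := C + w g + D)
      (c := A + w x + B + w p + C + w g + D) (by linarith) (by linarith) (by linarith)
    linarith
  zg := by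
    intro p g A B C D hA hB hC hD hp hg
    have hx := hw x
    have h1 := hw p
    have h2 := hw g
    simp only [Fc, hS, hp, hg, if_true]
    have k1 := lg_mono (a := B + w x + C) (b := A + w p + B + w x + C + w g + D)
      (by linarith) (by linarith)
    have k2 := lg_mono (a := B + w x + C) (b := A + w p + B + w x + C)
      (by linarith) (by linarith)
    have k3 := lg_add (a := A + w p + B) (b := C + w g + D)
      (c := A + w p + B + w x + C + w g + D) (by linarith) (by linarith) (by linarith)
    linarith
  z := by
    intro y A B C hA hB hC hy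
    have hx := hw x
    have h1 := hw y
    simp only [Fc, hS, hy, if_true]
    have k1 := lg_mono (a := B + w y + C) (b := A + w x + B + w y + C)
      (by linarith) (by linarith)
    have k2 := lg_mono (a := A + w x + B) (b := A + w x + B + w y + C)
      (by linarith) (by linarith)
    linarith

theorem pot_Fc_nonneg {S : ℕ → Prop} {w : ℕ → ℝ} (hw : ∀ a, 0 < w a) :
    ∀ t, 0 ≤ pot w (Fc S w) t
  | .nil => le_refl _
  | .node a l r => by
      have h1 := pot_Fc_nonneg (S := S) hw l
      have h2 := pot_Fc_nonneg (S := S) hw r
      have h3 : 0 ≤ Fc S w a (wt w l + w a + wt w r) := by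
        unfold Fc
        split_ifs
        · have := lg_mono (a := w a) (b := wt w l + w a + wt w r) (hw a) (by
            have := wt_nonneg (fun a => (hw a).le) l
            have := wt_nonneg (fun a => (hw a).le) r
            linarith)
          linarith
        · exact le_refl _
      simp only [pot]
      linarith

theorem wt_le_wt {w w' : ℕ → ℝ} {c : ℝ} (h : ∀ v, w' v ≤ c * w v) :
    ∀ t, wt w' t ≤ c * wt w t
  | .nil => by simp [wt]
  | .node a l r => by
      have h1 := wt_le_wt h l
      have h2 := wt_le_wt h r
      have h3 := h a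
      simp only [wt]
      nlinarith

theorem pot_change {S : ℕ → Prop} {w w' : ℕ → ℝ} (hw : ∀ a, 0 < w a) (hw' : ∀ a, 0 < w' a)
    {c B : ℝ} (hc : 0 < c) (hB : 1 ≤ B) (h1 : ∀ v, c * w v ≤ w' v)
    (h2 : ∀ v, w' v ≤ c * B * w v) : ∀ t,
    pot w' (Fc S w') t ≤ pot w (Fc S w) t + (inorder t).length * Real.logb 2 B
  | .nil => by simp [pot, inorder]
  | .node a l r => by
      have i1 := pot_change (S := S) hw hw' hc hB h1 h2 l
      have i2 := pot_change (S := S) hw hw' hc hB h1 h2 r
      have hB0 : 0 < B := by linarith
      have hlB : 0 ≤ Real.logb 2 B := Real.logb_nonneg (by norm_num) hB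
      have h3 : Fc S w' a (wt w' l + w' a + wt w' r)
          ≤ Fc S w a (wt w l + w a + wt w r) + Real.logb 2 B := by
        unfold Fc
        split_ifs
        · have l1 := wt_nonneg (fun a => (hw a).le) l
          have l2 := wt_nonneg (fun a => (hw a).le) r
          have l3 := wt_nonneg (fun a => (hw' a).le) l
          have l4 := wt_nonneg (fun a => (hw' a).le) r
          have l5 := hw a
          have l6 := hw' a
          have m1 := wt_le_wt h2 l
          have m2 := wt_le_wt h2 r
          have m3 := h2 a
          have k1 := lg_mono (a := wt w' l + w' a + wt w' r)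
            (b := c * B * (wt w l + w a + wt w r)) (by linarith) (by nlinarith)
          have k2 := lg_mono (a := c * w a) (b := w' a) (mul_pos hc (hw a)) (h1 a)
          rw [Real.logb_mul (mul_pos hc hB0).ne' (by linarith), Real.logb_mul hc.ne' hB0.ne'] at k1
          rw [Real.logb_mul hc.ne' (hw a).ne'] at k2
          linarith
        · linarith
      simp only [pot, inorder, List.length_append, List.length_cons]
      push_cast
      nlinarith

/-! ## The weights attached to a tree and a labelling -/

/-- Number of label changes on the search path of `x`, when the node above the root is given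
the label `q`. -/
def lev (κ : ℕ → ℕ) (x : ℕ) : ℕ → BinaryTree ℕ → ℕ
  | _, .nil => 0
  | q, .node a l r =>
    (if κ a = q then 0 else 1) +
      (if x = a then 0 else if x < a then lev κ x (κ a) l else lev κ x (κ a) r)

/-- The sum of `β⁻¹ ^ lev` over all keys of the tree. -/
noncomputable def tw (κ : ℕ → ℕ) (β : ℝ) : ℕ → BinaryTree ℕ → ℝ
  | _, .nil => 0
  | q, .node a l r => (if κ a = q then 1 else β⁻¹) * (1 + tw κ β (κ a) l + tw κ β (κ a) r)

/-- Number of keys with label `q`. -/
def cnt (κ : ℕ → ℕ) (q : ℕ) (t : BinaryTree ℕ) : ℕ :=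
  ((inorder t).filter (fun y => κ y = q)).length

theorem cnt_node (κ : ℕ → ℕ) (q a : ℕ) (l r : BinaryTree ℕ) :
    cnt κ q (.node a l r) = cnt κ q l + (if κ a = q then 1 else 0) + cnt κ q r := by
  unfold cnt
  simp only [inorder, List.filter_append, List.filter_cons, List.length_append]
  split_ifs <;> simp_all <;> omega

theorem cnt_left {κ : ℕ → ℕ} {a : ℕ} {l r : BinaryTree ℕ} {s : ℕ}
    (h : ∀ q, cnt κ q (.node a l r) ≤ s) : ∀ q, cnt κ q l ≤ s := by
  intro q
  have := h q
  rw [cnt_node] at this
  omega

theorem cnt_right {κ : ℕ → ℕ} {a : ℕ} {l r : BinaryTree ℕ} {s : ℕ}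
    (h : ∀ q, cnt κ q (.node a l r) ≤ s) : ∀ q, cnt κ q r ≤ s := by
  intro q
  have := h q
  rw [cnt_node] at this
  omega

section Cluster

variable {κ : ℕ → ℕ} {s : ℕ} {β : ℝ}

theorem tw_nonneg (hβ : 0 < β) : ∀ q t, 0 ≤ tw κ β q t
  | q, .nil => le_refl _
  | q, .node a l r => by
      have h1 := tw_nonneg hβ (κ a) l
      have h2 := tw_nonneg hβ (κ a) r
      simp only [tw]
      apply mul_nonneg
      · split_ifs
        · norm_num
        · positivity
      · linarith

theorem tw_le (hs : 1 ≤ s) (hβ : β = 2 * (s + 1)) : ∀ (t : BinaryTree ℕ) (q : ℕ),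
    (∀ q', cnt κ q' t ≤ s) →
    tw κ β q t ≤ cnt κ q t + (cnt κ q t + 1) * (s / (s + 1) : ℝ)
  | .nil, q, _ => by
      simp only [tw, cnt, inorder, List.filter_nil, List.length_nil]
      positivity
  | .node a l r, q, h => by
      have hs' : (1 : ℝ) ≤ s := by exact_mod_cast hs
      have hγ : (0 : ℝ) ≤ (s / (s + 1) : ℝ) := by positivity
      have i1 := tw_le hs hβ l (κ a) (cnt_left h)
      have i2 := tw_le hs hβ r (κ a) (cnt_right h)
      by_cases hq : κ a = q
      · simp only [tw, hq, if_true, one_mul]
        rw [hq] at i1 i2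
        rw [cnt_node]
        simp only [hq, if_true]
        push_cast
        nlinarith
      · simp only [tw, hq, if_false]
        have h1 := h (κ a)
        rw [cnt_node] at h1
        simp only [if_true] at h1
        have h1' : ((cnt κ (κ a) l : ℝ) + 1 + cnt κ (κ a) r) ≤ s := by exact_mod_cast h1
        have h2 : 1 + tw κ β (κ a) l + tw κ β (κ a) r ≤ 2 * s := by
          have h3 : (s + 1 : ℝ) * (s / (s + 1) : ℝ) = s := by
            field_simp
          have h4 : ((cnt κ (κ a) l : ℝ) + 1 + cnt κ (κ a) r + 1) * (s / (s + 1) : ℝ)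
              ≤ (s + 1 : ℝ) * (s / (s + 1) : ℝ) := by
            apply mul_le_mul_of_nonneg_right _ hγ
            linarith
          nlinarith
        have h5 : β⁻¹ * (1 + tw κ β (κ a) l + tw κ β (κ a) r) ≤ (s / (s + 1) : ℝ) := by
          calc β⁻¹ * (1 + tw κ β (κ a) l + tw κ β (κ a) r) ≤ β⁻¹ * (2 * s) := by
                apply mul_le_mul_of_nonneg_left h2
                rw [hβ]; positivity
            _ = (s / (s + 1) : ℝ) := by
                rw [hβ]; field_simp
        have h6 : (0 : ℝ) ≤ cnt κ q (.node a l r) := Nat.cast_nonneg _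
        nlinarith

theorem tw_node_le (hs : 1 ≤ s) (hβ : β = 2 * (s + 1)) {a : ℕ} {l r : BinaryTree ℕ}
    (h : ∀ q', cnt κ q' (.node a l r) ≤ s) :
    1 + tw κ β (κ a) l + tw κ β (κ a) r ≤ 2 * s := by
  have hs' : (1 : ℝ) ≤ s := by exact_mod_cast hs
  have hγ : (0 : ℝ) ≤ (s / (s + 1) : ℝ) := by positivity
  have i1 := tw_le hs hβ (.node a l r) (κ a) h
  simp only [tw, if_true, one_mul] at i1
  have h1 : (cnt κ (κ a) (.node a l r) : ℝ) ≤ s := by exact_mod_cast h (κ a)
  have h3 : (s + 1 : ℝ) * (s / (s + 1) : ℝ) = s := by
    field_simp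
  have h4 : ((cnt κ (κ a) (.node a l r) : ℝ) + 1) * (s / (s + 1) : ℝ)
      ≤ (s + 1 : ℝ) * (s / (s + 1) : ℝ) := by
    apply mul_le_mul_of_nonneg_right _ hγ
    linarith
  linarith

theorem wt_eq {w : ℕ → ℝ} : ∀ (t : BinaryTree ℕ) (q : ℕ) (c : ℝ), IsBST t →
    (∀ v ∈ inorder t, w v = c * β⁻¹ ^ lev κ v q t) → wt w t = c * tw κ β q t
  | .nil, q, c, _, _ => by simp [wt, tw]
  | .node a l r, q, c, hb, h => by
      simp only [IsBST, inorder, List.pairwise_append, List.pairwise_cons, List.mem_cons] at hb
      obtain ⟨hl, ⟨ha, hr⟩, hlr⟩ := hb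
      have hal : ∀ v ∈ inorder l, v < a := fun v hv => hlr v hv a (Or.inl rfl)
      have e0 : β⁻¹ ^ (if κ a = q then 0 else 1) = if κ a = q then 1 else β⁻¹ := by
        split_ifs <;> simp
      have h1 := wt_eq (w := w) l (κ a) (c * β⁻¹ ^ (if κ a = q then 0 else 1)) hl (by
        intro v hv
        rw [h v (by simp [inorder, hv])]
        have := hal v hv
        have hne : v ≠ a := by omega
        simp only [lev, hne, this, if_true, if_false, pow_add]
        ring)
      have h2 := wt_eq (w := w) r (κ a) (c * β⁻¹ ^ (if κ a = q then 0 else 1)) hr (by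
        intro v hv
        rw [h v (by simp [inorder, hv])]
        have := ha v hv
        have hne : v ≠ a := by omega
        have hnl : ¬ v < a := by omega
        simp only [lev, hne, hnl, if_false, pow_add]
        ring)
      have h3 : w a = c * β⁻¹ ^ (if κ a = q then 0 else 1) := by
        rw [h a (by simp [inorder])]
        simp [lev]
      simp only [wt, tw]
      rw [h1, h2, h3, e0]
      ring

theorem node_wt_le (hs : 1 ≤ s) (hβ : β = 2 * (s + 1)) {w : ℕ → ℝ} {a : ℕ}
    {l r : BinaryTree ℕ} {q : ℕ} {c : ℝ} (hc : 0 < c) (hb : IsBST (.node a l r))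
    (h : ∀ v ∈ inorder (.node a l r), w v = c * β⁻¹ ^ lev κ v q (.node a l r))
    (hcnt : ∀ q', cnt κ q' (.node a l r) ≤ s) :
    wt w (.node a l r) ≤ 2 * s * w a := by
  have h1 := wt_eq _ q c hb h
  have h2 := tw_node_le hs hβ hcnt
  have h3 : w a = c * β⁻¹ ^ (if κ a = q then 0 else 1) := by
    rw [h a (by simp [inorder])]
    simp [lev]
  have e0 : β⁻¹ ^ (if κ a = q then 0 else 1) = if κ a = q then 1 else β⁻¹ := by
    split_ifs <;> simp
  have hβ0 : 0 < β := by rw [hβ]; positivity
  have h4 : 0 < w a := by rw [h3]; positivity
  rw [h1, tw, ← e0, ← mul_assoc, ← h3]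
  nlinarith

theorem pot_le_steiner (hs : 1 ≤ s) (hβ : β = 2 * (s + 1)) {w : ℕ → ℝ} {S : ℕ → Prop} :
    ∀ (t : BinaryTree ℕ) (X : List ℕ) (q : ℕ) (c : ℝ), 0 < c → IsBST t →
    (∀ v ∈ inorder t, w v = c * β⁻¹ ^ lev κ v q t) →
    (∀ v ∈ inorder t, S v ↔ OnPath X v t) → (∀ q', cnt κ q' t ≤ s) →
    pot w (Fc S w) t ≤ steiner X t * Real.logb 2 (2 * s)
  | .nil, X, q, c, _, _, _, _, _ => by simp [pot, steiner]
  | .node a l r, X, q, c, hc, hb, h, hS, hcnt => by
      have hs' : (1 : ℝ) ≤ s := by exact_mod_cast hs
      have hβ0 : 0 < β := by rw [hβ]; positivity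
      have hnode := node_wt_le hs hβ hc hb h hcnt
      have hcl := cnt_left hcnt
      have hcr := cnt_right hcnt
      simp only [IsBST, inorder, List.pairwise_append, List.pairwise_cons, List.mem_cons] at hb
      obtain ⟨hl, ⟨ha, hr⟩, hlr⟩ := hb
      have hal : ∀ v ∈ inorder l, v < a := fun v hv => hlr v hv a (Or.inl rfl)
      have hc' : 0 < c * β⁻¹ ^ (if κ a = q then 0 else 1) := by positivity
      have hwl : ∀ v ∈ inorder l, w v
          = c * β⁻¹ ^ (if κ a = q then 0 else 1) * β⁻¹ ^ lev κ v (κ a) l := by
        intro v hv
        rw [h v (by simp [inorder, hv])]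
        have := hal v hv
        have hne : v ≠ a := by omega
        simp only [lev, hne, this, if_true, if_false, pow_add]
        ring
      have hwr : ∀ v ∈ inorder r, w v
          = c * β⁻¹ ^ (if κ a = q then 0 else 1) * β⁻¹ ^ lev κ v (κ a) r := by
        intro v hv
        rw [h v (by simp [inorder, hv])]
        have := ha v hv
        have hne : v ≠ a := by omega
        have hnl : ¬ v < a := by omega
        simp only [lev, hne, hnl, if_false, pow_add]
        ring
      by_cases hX : X = []
      · subst hX
        have h0 : ∀ v ∈ inorder (.node a l r), ¬ S v := fun v hv => by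
          rw [hS v hv]; exact onPath_nil_list _
        have i1 := pot_le_steiner hs hβ l [] (κ a) _ hc' hl hwl (fun v hv =>
          iff_of_false (h0 v (by simp [inorder, hv])) (onPath_nil_list _)) hcl
        have i2 := pot_le_steiner hs hβ r [] (κ a) _ hc' hr hwr (fun v hv =>
          iff_of_false (h0 v (by simp [inorder, hv])) (onPath_nil_list _)) hcr
        rw [steiner_nil_list] at i1 i2 ⊢
        have h1 : Fc S w a (wt w l + w a + wt w r) = 0 := by
          simp [Fc, h0 a (by simp [inorder])]
        simp only [pot, h1]
        push_cast at i1 i2 ⊢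
        linarith
      · have hSa : S a := (hS a (by simp [inorder])).2 ⟨hX, Or.inl rfl⟩
        have i1 := pot_le_steiner (S := S) hs hβ l (X.filter (· < a)) (κ a) _ hc' hl hwl (fun v hv => by
          rw [hS v (by simp [inorder, hv])]
          have h1 := hal v hv
          have h2 : v ≠ a := by omega
          have h3 : ¬ a < v := by omega
          simp [OnPath, hX, h1, h2, h3]) hcl
        have i2 := pot_le_steiner (S := S) hs hβ r (X.filter (a < ·)) (κ a) _ hc' hr hwr (fun v hv => by
          rw [hS v (by simp [inorder, hv])]
          have h1 := ha v hv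
          have h2 : v ≠ a := by omega
          have h3 : ¬ v < a := by omega
          simp [OnPath, hX, h1, h2, h3]) hcr
        have hwa : 0 < w a := by
          rw [h a (by simp [inorder])]; positivity
        have hwt : 0 < wt w (.node a l r) := by
          have n1 : wt w l = _ := wt_eq l (κ a) _ hl hwl
          have n2 : wt w r = _ := wt_eq r (κ a) _ hr hwr
          have n3 := tw_nonneg (κ := κ) hβ0 (κ a) l
          have n4 := tw_nonneg (κ := κ) hβ0 (κ a) r
          simp only [wt]
          rw [n1, n2]
          have n5 := mul_nonneg hc'.le n3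
          have n6 := mul_nonneg hc'.le n4
          linarith
        have h1 : Fc S w a (wt w l + w a + wt w r) ≤ Real.logb 2 (2 * s) := by
          simp only [Fc, hSa, if_true]
          have := lg_mono hwt hnode
          rw [Real.logb_mul (by positivity) hwa.ne'] at this
          simp only [wt] at this
          linarith
        simp only [pot, steiner, hX, if_false]
        push_cast
        linarith

end Cluster

section Rotations

variable {κ : ℕ → ℕ}

theorem lev_le (x : ℕ) : ∀ (t : BinaryTree ℕ) (q : ℕ), lev κ x q t ≤ 1 + depth x t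
  | .nil, q => by simp [lev]
  | .node a l r, q => by
      have h1 := lev_le x l (κ a)
      have h2 := lev_le x r (κ a)
      simp only [lev, depth]
      split_ifs <;> omega

theorem lev_change (x : ℕ) : ∀ (t : BinaryTree ℕ) (q q' : ℕ), lev κ x q t ≤ lev κ x q' t + 1
  | .nil, q, q' => by simp [lev]
  | .node a l r, q, q' => by
      simp only [lev]
      split_ifs <;> omega

theorem lev_rot_inside {a b : ℕ} {t t' : BinaryTree ℕ} (h : Rot a b t t') (hκ : κ a = κ b) :
    IsBST t → ∀ v q, lev κ v q t' = lev κ v q t := by
  induction h with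
  | atLeftChild A B C =>
    intro hb v q
    have hba : b < a := by
      simp only [IsBST, inorder, List.pairwise_append] at hb
      exact hb.2.2 b (by simp) a (by simp)
    simp only [lev, hκ, if_true]
    split_ifs <;> omega
  | atRightChild A B C =>
    intro hb v q
    have hba : a < b := by
      simp only [IsBST, inorder, List.pairwise_append, List.pairwise_cons] at hb
      exact hb.2.1.1 b (by simp)
    simp only [lev, hκ, if_true]
    split_ifs <;> omega
  | inLeft c r h ih =>
    intro hb v q
    simp only [IsBST, inorder, List.pairwise_append] at hb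
    simp only [lev, ih hb.1]
  | inRight c l h ih =>
    intro hb v q
    simp only [IsBST, inorder, List.pairwise_append, List.pairwise_cons] at hb
    simp only [lev, ih hb.2.1.2]

theorem lev_rot {a b : ℕ} {t t' : BinaryTree ℕ} (h : Rot a b t t') :
    IsBST t → ∀ q, ∃ m ≤ 2, ∀ v, lev κ v q t ≤ lev κ v q t' + m ∧
      lev κ v q t' + m ≤ lev κ v q t + 2 := by
  by_cases hκ : κ a = κ b
  · intro hb q
    refine ⟨0, by omega, fun v => ?_⟩
    rw [lev_rot_inside h hκ hb]
    omega
  induction h with
  | atLeftChild A B C =>
    intro hb q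
    have hba : b < a := by
      simp only [IsBST, inorder, List.pairwise_append] at hb
      exact hb.2.2 b (by simp) a (by simp)
    refine ⟨if κ a = q then 0 else if κ b = q then 2 else 1, by split_ifs <;> omega, ?_⟩
    intro v
    have h1 := lev_change (κ := κ) v B (κ a) (κ b)
    have h2 := lev_change (κ := κ) v B (κ b) (κ a)
    simp only [lev]
    split_ifs <;> omega
  | atRightChild A B C =>
    intro hb q
    have hba : a < b := by
      simp only [IsBST, inorder, List.pairwise_append, List.pairwise_cons] at hb
      exact hb.2.1.1 b (by simp)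
    refine ⟨if κ a = q then 0 else if κ b = q then 2 else 1, by split_ifs <;> omega, ?_⟩
    intro v
    have h1 := lev_change (κ := κ) v B (κ a) (κ b)
    have h2 := lev_change (κ := κ) v B (κ b) (κ a)
    simp only [lev]
    split_ifs <;> omega
  | inLeft c r h ih =>
    intro hb q
    simp only [IsBST, inorder, List.pairwise_append] at hb
    obtain ⟨m, hm, h1⟩ := ih hb.1 (κ c)
    refine ⟨m, hm, ?_⟩
    intro v
    have := h1 v
    simp only [lev]
    split_ifs <;> omega
  | inRight c l h ih =>
    intro hb q
    simp only [IsBST, inorder, List.pairwise_append, List.pairwise_cons] at hb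
    obtain ⟨m, hm, h1⟩ := ih hb.2.1.2 (κ c)
    refine ⟨m, hm, ?_⟩
    intro v
    have := h1 v
    simp only [lev]
    split_ifs <;> omega

/-- The weights attached to a tree and a labelling. -/
noncomputable def wU (κ : ℕ → ℕ) (β : ℝ) (U : BinaryTree ℕ) (v : ℕ) : ℝ := β⁻¹ ^ lev κ v 0 U

theorem wU_pos {β : ℝ} (hβ : 0 < β) (U : BinaryTree ℕ) (v : ℕ) : 0 < wU κ β U v := by
  unfold wU; positivity

/-- Number of the rotations in `P` at an edge whose ends have different labels. -/
def across (κ : ℕ → ℕ) (P : List (ℕ × ℕ)) : ℕ := (P.filter (fun p => κ p.1 ≠ κ p.2)).length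

theorem pot_rot {β : ℝ} (hβ : 1 ≤ β) {S : ℕ → Prop} {a b : ℕ} {U U' : BinaryTree ℕ}
    (h : Rot a b U U') (hb : IsBST U) (Z : BinaryTree ℕ) :
    pot (wU κ β U') (Fc S (wU κ β U')) Z
      ≤ pot (wU κ β U) (Fc S (wU κ β U)) Z
        + (2 * Real.logb 2 β) * (inorder Z).length * (if κ a ≠ κ b then 1 else 0 : ℕ) := by
  have hβ0 : 0 < β := by linarith
  by_cases hκ : κ a = κ b
  · have : wU κ β U' = wU κ β U := by
      funext v
      simp only [wU, lev_rot_inside h hκ hb]
    rw [this]
    simp [hκ]
  · obtain ⟨m, hm, h1⟩ := lev_rot (κ := κ) h hb 0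
    have key := pot_change (S := S) (w := wU κ β U) (w' := wU κ β U') (c := β ^ m * β⁻¹ ^ 2)
      (B := β ^ 2) (wU_pos hβ0 U) (wU_pos hβ0 U') (by positivity) (one_le_pow₀ hβ)
      (by
        intro v
        have h2 := (h1 v).2
        unfold wU
        have h3 : β⁻¹ ^ (lev κ v 0 U + 2) ≤ β⁻¹ ^ (lev κ v 0 U' + m) :=
          pow_le_pow_of_le_one (by positivity) (inv_le_one_of_one_le₀ hβ) h2
        have h4 : β ^ m * β⁻¹ ^ m = 1 := by
          rw [← mul_pow, mul_inv_cancel₀ hβ0.ne', one_pow]
        calc β ^ m * β⁻¹ ^ 2 * β⁻¹ ^ lev κ v 0 U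
            = β ^ m * β⁻¹ ^ (lev κ v 0 U + 2) := by rw [pow_add]; ring
          _ ≤ β ^ m * β⁻¹ ^ (lev κ v 0 U' + m) := by
              apply mul_le_mul_of_nonneg_left h3; positivity
          _ = (β ^ m * β⁻¹ ^ m) * β⁻¹ ^ lev κ v 0 U' := by rw [pow_add]; ring
          _ = β⁻¹ ^ lev κ v 0 U' := by rw [h4, one_mul])
      (by
        intro v
        have h2 := (h1 v).1
        unfold wU
        have h3 : β⁻¹ ^ (lev κ v 0 U' + m) ≤ β⁻¹ ^ (lev κ v 0 U) :=
          pow_le_pow_of_le_one (by positivity) (inv_le_one_of_one_le₀ hβ) h2
        have h4 : β ^ m * β⁻¹ ^ m = 1 := by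
          rw [← mul_pow, mul_inv_cancel₀ hβ0.ne', one_pow]
        have h5 : β⁻¹ ^ 2 * β ^ 2 = 1 := by
          rw [← mul_pow, inv_mul_cancel₀ hβ0.ne', one_pow]
        calc β⁻¹ ^ lev κ v 0 U' = (β ^ m * β⁻¹ ^ m) * β⁻¹ ^ lev κ v 0 U' := by
              rw [h4, one_mul]
          _ = β ^ m * β⁻¹ ^ (lev κ v 0 U' + m) := by rw [pow_add]; ring
          _ ≤ β ^ m * β⁻¹ ^ lev κ v 0 U := by
              apply mul_le_mul_of_nonneg_left h3; positivity
          _ = β ^ m * (β⁻¹ ^ 2 * β ^ 2) * β⁻¹ ^ lev κ v 0 U := by rw [h5, mul_one]
          _ = β ^ m * β⁻¹ ^ 2 * β ^ 2 * β⁻¹ ^ lev κ v 0 U := by ring)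
      Z
    rw [Real.logb_pow] at key
    simp only [hκ, ne_eq, not_false_eq_true, if_true]
    push_cast at key ⊢
    linarith

theorem pot_rotSeq {β : ℝ} (hβ : 1 ≤ β) {S : ℕ → Prop} {P : List (ℕ × ℕ)}
    {U U' : BinaryTree ℕ} (h : RotSeq P U U') : IsBST U → ∀ (Z : BinaryTree ℕ),
    pot (wU κ β U') (Fc S (wU κ β U')) Z
      ≤ pot (wU κ β U) (Fc S (wU κ β U)) Z + (2 * Real.logb 2 β) * (inorder Z).length * across κ P := by
  induction h with
  | refl t => intro _ Z; simp [across]
  | @step a b P t u v h h2 ih =>
    intro hb Z
    have h3 := pot_rot (κ := κ) hβ (S := S) h hb Z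
    have h4 := ih (by rw [IsBST, rot_inorder h]; exact hb) Z
    have h5 : across κ ((a, b) :: P) = (if κ a ≠ κ b then 1 else 0) + across κ P := by
      unfold across
      rw [List.filter_cons]
      split_ifs <;> simp_all <;> omega
    rw [h5]
    push_cast at h3 h4 ⊢
    linarith

theorem across_append (P Q : List (ℕ × ℕ)) :
    across κ (P ++ Q) = across κ P + across κ Q := by
  simp [across]

end Rotations

theorem wt_eq_sum (w : ℕ → ℝ) : ∀ t, wt w t = ((inorder t).map w).sum
  | .nil => by simp [wt, inorder]
  | .node a l r => by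
      simp only [wt, inorder, List.map_append, List.map_cons, List.sum_append, List.sum_cons]
      rw [wt_eq_sum w l, wt_eq_sum w r]
      ring

theorem cnt_congr {κ : ℕ → ℕ} {t t' : BinaryTree ℕ} (h : inorder t' = inorder t) (q : ℕ) :
    cnt κ q t' = cnt κ q t := by
  unfold cnt; rw [h]

/-- The bound on the weight of a requested key. -/
theorem request_bound {κ : ℕ → ℕ} {s : ℕ} {β : ℝ} (hs : 1 ≤ s) (hβ : β = 2 * (s + 1))
    {U : BinaryTree ℕ} (hb : IsBST U) (hcnt : ∀ q, cnt κ q U ≤ s) {x : ℕ}
    (hx : x ∈ inorder U) :
    Real.logb 2 (wt (wU κ β U) U) - Real.logb 2 (wU κ β U x) ≤ Real.logb 2 (2 * s) + depth x U * Real.logb 2 β := by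
  have hβ0 : 0 < β := by rw [hβ]; positivity
  have hβ1 : 1 ≤ β := by rw [hβ]; nlinarith [(Nat.cast_nonneg s : (0:ℝ) ≤ s)]
  have hs' : (1 : ℝ) ≤ s := by exact_mod_cast hs
  cases U with
  | nil => simp [inorder] at hx
  | node a l r =>
    have h1 := node_wt_le (κ := κ) hs hβ (w := wU κ β (.node a l r)) (a := a) (l := l) (r := r)
      (q := 0) (c := 1) one_pos hb (fun v _ => by simp [wU]) hcnt
    have hwa := wU_pos (κ := κ) hβ0 (.node a l r) a
    have hwt : 0 < wt (wU κ β (.node a l r)) (.node a l r) := by
      have n1 := wt_nonneg (fun v => (wU_pos (κ := κ) hβ0 (.node a l r) v).le) l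
      have n2 := wt_nonneg (fun v => (wU_pos (κ := κ) hβ0 (.node a l r) v).le) r
      simp only [wt]
      linarith
    have h2 := lg_mono hwt h1
    rw [Real.logb_mul (by positivity) hwa.ne'] at h2
    have h3 : Real.logb 2 (wU κ β (.node a l r) a) - Real.logb 2 (wU κ β (.node a l r) x)
        ≤ depth x (.node a l r) * Real.logb 2 β := by
      simp only [wU, Real.logb_pow, Real.logb_inv]
      have h4 : lev κ x 0 (.node a l r) ≤ lev κ a 0 (.node a l r) + depth x (.node a l r) := by
        have k1 := lev_le (κ := κ) x l (κ a)
        have k2 := lev_le (κ := κ) x r (κ a)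
        simp only [lev, depth]
        split_ifs <;> omega
      have h5 : (lev κ x 0 (.node a l r) : ℝ)
          ≤ lev κ a 0 (.node a l r) + depth x (.node a l r) := by exact_mod_cast h4
      have h6 : 0 ≤ Real.logb 2 β := Real.logb_nonneg (by norm_num) hβ1
      nlinarith
    linarith

/-- The main induction. -/
theorem main_induction {κ : ℕ → ℕ} {s : ℕ} {β : ℝ} (hs : 1 ≤ s) (hβ : β = 2 * (s + 1))
    {S : ℕ → Prop} {U : BinaryTree ℕ} {Y : List ℕ} {P : List (ℕ × ℕ)} {c : ℕ}
    (hE : Exec U Y P c) : IsBST U → (∀ q, cnt κ q U ≤ s) →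
    (∀ x ∈ Y, S x ∧ x ∈ inorder U) → ∀ Z : BinaryTree ℕ, inorder Z = inorder U → Closed S Z →
    (splayCost Y Z : ℝ) ≤ pot (wU κ β U) (Fc S (wU κ β U)) Z + (6 + 3 * Real.logb 2 s) * c
      + (4 + 2 * Real.logb 2 s) * (inorder U).length * across κ P := by
  have hβ0 : 0 < β := by rw [hβ]; positivity
  have hβ1 : 1 ≤ β := by rw [hβ]; nlinarith [(Nat.cast_nonneg s : (0:ℝ) ≤ s)]
  have hs' : (1 : ℝ) ≤ s := by exact_mod_cast hs
  have hL : 0 ≤ Real.logb 2 s := Real.logb_nonneg (by norm_num) hs'
  have h2s : Real.logb 2 (2 * s) = 1 + Real.logb 2 s := by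
    rw [Real.logb_mul (by norm_num) (by positivity), Real.logb_self_eq_one (by norm_num)]
  have hlβ : Real.logb 2 β ≤ 2 + Real.logb 2 s := by
    have h4 : Real.logb 2 (4 * s) = 2 + Real.logb 2 s := by
      rw [Real.logb_mul (by norm_num) (by positivity), show (4 : ℝ) = 2 ^ 2 by norm_num,
        Real.logb_pow, Real.logb_self_eq_one (by norm_num)]
      norm_num
    rw [← h4]
    apply lg_mono hβ0
    rw [hβ]
    linarith
  induction hE with
  | nil T =>
    intro hb hcnt hY Z hZ hc
    have := pot_Fc_nonneg (S := S) (wU_pos (κ := κ) hβ0 T) Z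
    simp [splayCost, across]
    exact this
  | @cons T T' x X P Q c h1 h2 ih =>
    intro hb hcnt hY Z hZ hc
    obtain ⟨hSx, hxT⟩ := hY x (by simp)
    have hin' := rotSeq_inorder h1
    have hZb : IsBST Z := by rw [IsBST, hZ]; exact hb
    obtain ⟨a1, a2, a3⟩ := splay_amortized (good_Fc (wU_pos (κ := κ) hβ0 T) hSx) hSx
      (fun v => (wU_pos (κ := κ) hβ0 T v).le) (wU_pos (κ := κ) hβ0 T x) hZb (by rw [hZ]; exact hxT)
      hc
    have hwt : wt (wU κ β T) Z = wt (wU κ β T) T := by rw [wt_eq_sum, wt_eq_sum, hZ]
    rw [hwt] at a3
    have a4 := request_bound hs hβ hb hcnt hxT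
    have a5 := ih (by rw [IsBST, hin']; exact hb) (fun q => by rw [cnt_congr hin']; exact hcnt q)
      (fun y hy => by rw [hin']; exact hY y (by simp [hy])) (splay x Z) (by rw [a2, hZ, hin']) a1
    have a6 := pot_rotSeq (κ := κ) hβ1 (S := S) h1 hb (splay x Z)
    rw [hin'] at a5
    have hn : (inorder (splay x Z)).length = (inorder T).length := by rw [a2, hZ]
    rw [hn] at a6
    have a7 : 2 * Real.logb 2 β * (inorder T).length * across κ P
        ≤ (4 + 2 * Real.logb 2 s) * (inorder T).length * across κ P := by
      apply mul_le_mul_of_nonneg_right _ (Nat.cast_nonneg _)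
      apply mul_le_mul_of_nonneg_right _ (Nat.cast_nonneg _)
      linarith
    have a8 : (depth x T : ℝ) * Real.logb 2 β ≤ depth x T * (2 + Real.logb 2 s) :=
      mul_le_mul_of_nonneg_left hlβ (Nat.cast_nonneg _)
    have a9 : (0 : ℝ) ≤ (6 + 3 * Real.logb 2 s) * P.length := by positivity
    rw [across_append]
    simp only [splayCost]
    push_cast
    rw [h2s] at a4
    nlinarith

/-- Splaying against executions whose rotations are mostly inside clusters of bounded size. -/
theorem cluster_bound {κ : ℕ → ℕ} {s : ℕ} {T : BinaryTree ℕ} {X : List ℕ}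
    {P : List (ℕ × ℕ)} {c : ℕ} (hT : IsBST T) (hX : ∀ x ∈ X, x ∈ inorder T)
    (hE : Exec T X P c) (hcnt : ∀ q, cnt κ q T ≤ s) :
    (splayCost X T : ℝ) ≤ (7 + 4 * Real.logb 2 s) * c
      + (4 + 2 * Real.logb 2 s) * (inorder T).length * across κ P := by
  rcases Nat.eq_zero_or_pos s with hs | hs
  · have hX0 : X = [] := by
      cases X with
      | nil => rfl
      | cons x X =>
        exfalso
        have h1 := hcnt (κ x)
        have h2 := hX x (by simp)
        have h3 : x ∈ (inorder T).filter (fun y => κ y = κ x) := by simp [h2]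
        have h4 := List.length_pos_of_mem h3
        unfold cnt at h1
        omega
    subst hX0 hs
    simp only [splayCost]
    simp
    positivity
  · have hs' : (1 : ℝ) ≤ s := by exact_mod_cast hs
    have hL : 0 ≤ Real.logb 2 s := Real.logb_nonneg (by norm_num) hs'
    have hβ0 : (0 : ℝ) < 2 * (s + 1) := by positivity
    have h1 := main_induction (κ := κ) (β := 2 * (s + 1)) hs rfl (S := fun v => OnPath X v T) hE hT
      hcnt (fun x hx => ⟨onPath_self hx hT (hX x hx), hX x hx⟩) T rfl
      (closed_onPath hT (fun v _ => Iff.rfl))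
    have h2 := pot_le_steiner (κ := κ) (β := 2 * (s + 1)) hs rfl (w := wU κ (2 * (s + 1)) T)
      (S := fun v => OnPath X v T) T X 0 1 one_pos hT (fun v _ => by simp [wU])
      (fun v _ => Iff.rfl) hcnt
    have h3 : (steiner X T : ℝ) ≤ c := by exact_mod_cast steiner_le_cost hE hT
    have h2s : Real.logb 2 (2 * s) = 1 + Real.logb 2 s := by
      rw [Real.logb_mul (by norm_num) (by positivity), Real.logb_self_eq_one (by norm_num)]
    rw [h2s] at h2
    nlinarith

/-! ## Few requested keys -/

/-- Weight one for the requested keys, zero for the others. -/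
noncomputable def wX (X : List ℕ) (v : ℕ) : ℝ := if v ∈ X then 1 else 0

/-- The local potential of a node whose subtree has `s` requested keys. -/
noncomputable def FX (_ : ℕ) (s : ℝ) : ℝ := if s = 0 then 0 else Real.logb 2 s + 2

theorem zero_or_one_le {r : ℝ} (h : ∃ n : ℕ, r = n) : r = 0 ∨ 1 ≤ r := by
  obtain ⟨n, rfl⟩ := h
  rcases Nat.eq_zero_or_pos n with h | h
  · left; rw [h]; norm_num
  · right; exact_mod_cast h

theorem wX_nat (X : List ℕ) (v : ℕ) : ∃ n : ℕ, wX X v = n := by
  unfold wX
  split_ifs
  · exact ⟨1, by norm_num⟩
  · exact ⟨0, by norm_num⟩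

theorem nat_nonneg {r : ℝ} (h : ∃ n : ℕ, r = n) : 0 ≤ r := by
  obtain ⟨n, rfl⟩ := h
  exact Nat.cast_nonneg n

theorem nat_add {r s : ℝ} (h : ∃ n : ℕ, r = n) (h' : ∃ n : ℕ, s = n) : ∃ n : ℕ, r + s = n := by
  obtain ⟨n, rfl⟩ := h
  obtain ⟨m, rfl⟩ := h'
  exact ⟨n + m, by push_cast; ring⟩

theorem lg_nonneg {r : ℝ} (h : 1 ≤ r) : 0 ≤ Real.logb 2 r := Real.logb_nonneg (by norm_num) h

theorem FX_of_pos {a : ℕ} {s : ℝ} (h : 0 < s) : FX a s = Real.logb 2 s + 2 := by
  simp [FX, h.ne']

theorem FX_of_zero {a : ℕ} {s : ℝ} (h : s = 0) : FX a s = 0 := by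
  simp [FX, h]

theorem good_FX {X : List ℕ} {x : ℕ} (hx : x ∈ X) :
    Good (fun r => ∃ n : ℕ, r = n) (fun _ => True) (wX X) FX x where
  zero := ⟨0, by norm_num⟩
  add := fun a b ha hb => nat_add ha hb
  wv := wX_nat X
  zz := by
    intro p g A B C D hA hB hC hD _ _
    have hwx : wX X x = 1 := by simp [wX, hx]
    have h1 := wX_nat X p
    have h2 := wX_nat X g
    rw [hwx]
    have a0 := nat_nonneg hA
    have b0 := nat_nonneg hB
    have c0 := nat_nonneg hC
    have d0 := nat_nonneg hD
    have p0 := nat_nonneg h1
    have g0 := nat_nonneg h2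
    have e1 : A + 1 + B + wX X p + C + wX X g + D ≠ 0 := by
      intro h; linarith
    have e2 : A + 1 + B ≠ 0 := by intro h; linarith
    have e3 : A + 1 + B + wX X p + C ≠ 0 := by intro h; linarith
    have k2 := lg_mono (a := A + 1 + B) (b := A + 1 + B + wX X p + C)
      (by linarith) (by linarith)
    have k3 := lg_mono (a := A + 1 + B) (b := A + 1 + B + wX X p + C + wX X g + D)
      (by linarith) (by linarith)
    have n1 := lg_nonneg (r := A + 1 + B) (by linarith)
    simp only [FX, e1, e2, e3, if_false]
    rcases zero_or_one_le (nat_add (nat_add hC h2) hD) with hG | hG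
    · rcases zero_or_one_le (nat_add (nat_add (nat_add (nat_add hB h1) hC) h2) hD) with hP | hP
      · simp only [hG, hP, if_true]
        linarith
      · have e4 : B + wX X p + C + wX X g + D ≠ 0 := by intro h; linarith
        simp only [hG, e4, if_true, if_false]
        have k1 := lg_mono (a := B + wX X p + C + wX X g + D)
          (b := A + 1 + B + wX X p + C + wX X g + D) (by linarith) (by linarith)
        linarith
    · have e4 : B + wX X p + C + wX X g + D ≠ 0 := by intro h; linarith
      have e5 : C + wX X g + D ≠ 0 := by intro h; linarith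
      simp only [e4, e5, if_false]
      have k1 := lg_mono (a := B + wX X p + C + wX X g + D)
        (b := A + 1 + B + wX X p + C + wX X g + D) (by linarith) (by linarith)
      have k4 := lg_add (a := A + 1 + B) (b := C + wX X g + D)
        (c := A + 1 + B + wX X p + C + wX X g + D) (by linarith) (by linarith) (by linarith)
      linarith
  zg := by
    intro p g A B C D hA hB hC hD _ _
    have hwx : wX X x = 1 := by simp [wX, hx]
    have h1 := wX_nat X p
    have h2 := wX_nat X g
    rw [hwx]
    have a0 := nat_nonneg hA
    have b0 := nat_nonneg hB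
    have c0 := nat_nonneg hC
    have d0 := nat_nonneg hD
    have p0 := nat_nonneg h1
    have g0 := nat_nonneg h2
    have k2 := lg_mono (a := B + 1 + C) (b := A + wX X p + B + 1 + C)
      (by linarith) (by linarith)
    have k3 := lg_mono (a := B + 1 + C) (b := A + wX X p + B + 1 + C + wX X g + D)
      (by linarith) (by linarith)
    have n1 := lg_nonneg (r := B + 1 + C) (by linarith)
    rw [FX_of_pos (by linarith : 0 < A + wX X p + B + 1 + C + wX X g + D),
      FX_of_pos (by linarith : 0 < B + 1 + C), FX_of_pos (by linarith : 0 < A + wX X p + B + 1 + C),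
      FX_of_pos (by linarith : 0 < A + wX X p + B + 1 + C + wX X g + D)]
    rcases zero_or_one_le (nat_add (nat_add hC h2) hD) with hG | hG
    · rw [FX_of_zero hG]
      rcases zero_or_one_le (nat_add (nat_add hA h1) hB) with hP | hP
      · rw [FX_of_zero hP]
        linarith
      · rw [FX_of_pos (by linarith : 0 < A + wX X p + B)]
        have k1 := lg_mono (a := A + wX X p + B)
          (b := A + wX X p + B + 1 + C + wX X g + D) (by linarith) (by linarith)
        linarith
    · rw [FX_of_pos (by linarith : 0 < C + wX X g + D)]
      rcases zero_or_one_le (nat_add (nat_add hA h1) hB) with hP | hP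
      · rw [FX_of_zero hP]
        have k1 := lg_mono (a := C + wX X g + D)
          (b := A + wX X p + B + 1 + C + wX X g + D) (by linarith) (by linarith)
        linarith
      · rw [FX_of_pos (by linarith : 0 < A + wX X p + B)]
        have k4 := lg_add (a := A + wX X p + B) (b := C + wX X g + D)
          (c := A + wX X p + B + 1 + C + wX X g + D) (by linarith) (by linarith) (by linarith)
        linarith
  z := by
    intro y A B C hA hB hC _
    have hwx : wX X x = 1 := by simp [wX, hx]
    have h1 := wX_nat X y
    rw [hwx]
    have a0 := nat_nonneg hA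
    have b0 := nat_nonneg hB
    have c0 := nat_nonneg hC
    have p0 := nat_nonneg h1
    have e1 : A + 1 + B + wX X y + C ≠ 0 := by intro h; linarith
    have e2 : A + 1 + B ≠ 0 := by intro h; linarith
    have k3 := lg_mono (a := A + 1 + B) (b := A + 1 + B + wX X y + C)
      (by linarith) (by linarith)
    have n1 := lg_nonneg (r := A + 1 + B) (by linarith)
    simp only [FX, e1, e2, if_false]
    rcases zero_or_one_le (nat_add (nat_add hB h1) hC) with hG | hG
    · simp only [hG, if_true]
      linarith
    · have e5 : B + wX X y + C ≠ 0 := by intro h; linarith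
      simp only [e5, if_false]
      have k1 := lg_mono (a := B + wX X y + C)
        (b := A + 1 + B + wX X y + C) (by linarith) (by linarith)
      linarith

theorem wX_nonneg (X : List ℕ) (v : ℕ) : 0 ≤ wX X v := nat_nonneg (wX_nat X v)

theorem wt_nat (X : List ℕ) : ∀ t, ∃ n : ℕ, wt (wX X) t = n
  | .nil => ⟨0, by simp [wt]⟩
  | .node a l r => nat_add (nat_add (wt_nat X l) (wX_nat X a)) (wt_nat X r)

theorem pot_FX_nonneg (X : List ℕ) : ∀ t, 0 ≤ pot (wX X) FX t
  | .nil => le_refl _
  | .node a l r => by
      have h1 := pot_FX_nonneg X l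
      have h2 := pot_FX_nonneg X r
      have h3 : 0 ≤ FX a (wt (wX X) l + wX X a + wt (wX X) r) := by
        unfold FX
        rcases zero_or_one_le (wt_nat X (.node a l r)) with h | h
        · simp only [wt] at h
          simp [h]
        · simp only [wt] at h
          have := lg_nonneg h
          split_ifs <;> linarith
      simp only [pot]
      linarith

theorem potX_le {X : List ℕ} {k : ℝ} (hk : 1 ≤ k) : ∀ (t : BinaryTree ℕ) (Y : List ℕ),
    IsBST t → (∀ v ∈ inorder t, v ∈ X ↔ v ∈ Y) → wt (wX X) t ≤ k →
    pot (wX X) FX t ≤ steiner Y t * (Real.logb 2 k + 2)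
  | .nil, Y, _, _, _ => by simp [pot, steiner]
  | .node a l r, Y, hb, hY, hw => by
      simp only [IsBST, inorder, List.pairwise_append, List.pairwise_cons, List.mem_cons] at hb
      obtain ⟨hl, ⟨ha, hr⟩, hlr⟩ := hb
      have hal : ∀ v ∈ inorder l, v < a := fun v hv => hlr v hv a (Or.inl rfl)
      have w1 := wt_nonneg (wX_nonneg X) l
      have w2 := wt_nonneg (wX_nonneg X) r
      have w3 := wX_nonneg X a
      simp only [wt] at hw
      by_cases hY0 : Y = []
      · subst hY0
        have i1 := potX_le hk l [] hl (fun v hv => hY v (by simp [inorder, hv])) (by linarith)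
        have i2 := potX_le hk r [] hr (fun v hv => hY v (by simp [inorder, hv])) (by linarith)
        have h0 : ∀ t : BinaryTree ℕ, (∀ v ∈ inorder t, v ∈ X ↔ v ∈ ([] : List ℕ)) →
            wt (wX X) t = 0 := by
          intro t ht
          rw [wt_eq_sum]
          apply List.sum_eq_zero
          intro r hr
          obtain ⟨v, hv, rfl⟩ := List.mem_map.1 hr
          have h3 : v ∉ X := by rw [ht v hv]; simp
          simp [wX, h3]
        have h1 := h0 (.node a l r) hY
        simp only [wt] at h1
        rw [steiner_nil_list] at i1 i2 ⊢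
        simp only [pot, h1, FX, if_true]
        push_cast at i1 i2 ⊢
        linarith
      · have i1 := potX_le hk l (Y.filter (· < a)) hl (fun v hv => by
          rw [hY v (by simp [inorder, hv])]
          simp [hal v hv]) (by linarith)
        have i2 := potX_le hk r (Y.filter (a < ·)) hr (fun v hv => by
          rw [hY v (by simp [inorder, hv])]
          simp [ha v hv]) (by linarith)
        have hlk := lg_nonneg hk
        have h1 : FX a (wt (wX X) l + wX X a + wt (wX X) r) ≤ Real.logb 2 k + 2 := by
          unfold FX
          split_ifs with h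
          · linarith
          · have := lg_mono (a := wt (wX X) l + wX X a + wt (wX X) r) (b := k)
              (lt_of_le_of_ne (by linarith) (Ne.symm h)) hw
            linarith
        simp only [pot, steiner, hY0, if_false]
        push_cast
        linarith

theorem splayCost_le_X {X : List ℕ} {k : ℝ} (hk : 1 ≤ k) : ∀ (Y : List ℕ) (Z : BinaryTree ℕ),
    IsBST Z → (∀ x ∈ Y, x ∈ X ∧ x ∈ inorder Z) → wt (wX X) Z ≤ k →
    (splayCost Y Z : ℝ) ≤ pot (wX X) FX Z + Y.length * (2 + 3 * Real.logb 2 k)
  | [], Z, _, _, _ => by
      simp only [splayCost, List.length_nil]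
      push_cast
      have := pot_FX_nonneg X Z
      linarith
  | x :: Y, Z, hb, hY, hw => by
      obtain ⟨hx, hxZ⟩ := hY x (by simp)
      have hwx : wX X x = 1 := by simp [wX, hx]
      have hcl : ∀ t, Closed (fun _ => True) t := by
        intro t
        induction t with
        | nil => trivial
        | node a l r h1 h2 => exact ⟨Or.inl trivial, h1, h2⟩
      obtain ⟨-, a2, a3⟩ := splay_amortized (good_FX hx) trivial (wX_nonneg X)
        (by rw [hwx]; norm_num) hb hxZ (hcl Z)
      have hZ' : wt (wX X) (splay x Z) = wt (wX X) Z := by rw [wt_eq_sum, wt_eq_sum, a2]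
      have i := splayCost_le_X hk Y (splay x Z) (by rw [IsBST, a2]; exact hb)
        (fun y hy => by rw [a2]; exact hY y (by simp [hy])) (by rw [hZ']; exact hw)
      rw [hwx, Real.logb_one] at a3
      have hpos : 1 ≤ wt (wX X) Z := by
        rcases zero_or_one_le (wt_nat X Z) with h | h
        · exfalso
          have h1 := le_swt (wX_nonneg X) (at_of_mem hb hxZ)
          have h2 : swt (wX X) x Z ≤ wt (wX X) Z := by
            clear * -
            induction Z with
            | nil => simp [swt, wt]
            | node a l r h1 h2 =>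
              have := wt_nonneg (wX_nonneg X) l
              have := wt_nonneg (wX_nonneg X) r
              have := wX_nonneg X a
              simp only [swt, wt]
              split_ifs <;> linarith
          linarith
        · exact h
      have h1 := lg_mono (by linarith) hw
      simp only [splayCost, List.length_cons]
      push_cast
      linarith

theorem sum_wX (X : List ℕ) : ∀ L : List ℕ,
    (L.map (wX X)).sum = ((L.filter (fun v => v ∈ X)).length : ℝ)
  | [] => by simp
  | a :: L => by
      rw [List.map_cons, List.sum_cons, sum_wX X L, List.filter_cons]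
      by_cases h : a ∈ X
      · simp [wX, h]; ring
      · simp [wX, h]

theorem filter_length_le {L : List ℕ} (hL : L.Nodup) (p : ℕ → Bool) (A : Finset ℕ)
    (h : ∀ v ∈ L, p v = true → v ∈ A) : (L.filter p).length ≤ A.card := by
  rw [← List.toFinset_card_of_nodup (hL.filter p)]
  apply Finset.card_le_card
  intro v hv
  rw [List.mem_toFinset, List.mem_filter] at hv
  exact h v hv.1 hv.2

theorem length_le_cost {T : BinaryTree ℕ} {X : List ℕ} {P : List (ℕ × ℕ)} {c : ℕ}
    (h : Exec T X P c) : X.length ≤ c := by
  induction h with
  | nil T => simp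
  | cons h1 h2 ih => simp only [List.length_cons]; omega

theorem bst_nodup {T : BinaryTree ℕ} (hT : IsBST T) : (inorder T).Nodup :=
  List.Pairwise.imp (fun h => Nat.ne_of_lt h) hT

/-- Splaying against executions for sequences with few distinct keys. -/
theorem few_keys_bound {T : BinaryTree ℕ} {X : List ℕ} {P : List (ℕ × ℕ)} {c : ℕ}
    (hT : IsBST T) (hX : ∀ x ∈ X, x ∈ inorder T) (hE : Exec T X P c) :
    (splayCost X T : ℝ) ≤ (4 + 4 * Real.logb 2 X.toFinset.card) * c := by
  rcases X.eq_nil_or_concat with h0 | ⟨X', x', h0⟩
  · subst h0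
    simp [splayCost]
  · have hne : X ≠ [] := by rw [h0]; simp
    have hk : (1 : ℝ) ≤ X.toFinset.card := by
      have : 0 < X.toFinset.card := by
        rw [Finset.card_pos, List.toFinset_nonempty_iff]
        exact hne
      exact_mod_cast this
    have hw : wt (wX X) T ≤ X.toFinset.card := by
      rw [wt_eq_sum, sum_wX]
      exact_mod_cast filter_length_le (bst_nodup hT) _ X.toFinset (fun v _ hv => by simpa using hv)
    have h1 := splayCost_le_X hk X T hT (fun x hx => ⟨hx, hX x hx⟩) hw
    have h2 := potX_le hk T X hT (fun v _ => Iff.rfl) hw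
    have h3 : (steiner X T : ℝ) ≤ c := by exact_mod_cast steiner_le_cost hE hT
    have h4 : (X.length : ℝ) ≤ c := by exact_mod_cast length_le_cost hE
    have h5 := lg_nonneg hk
    nlinarith

/-! ## Few rotations -/

/-- Splaying against executions with few rotations. -/
theorem few_rotations_bound {T : BinaryTree ℕ} {X : List ℕ} {P : List (ℕ × ℕ)} {c : ℕ}
    (hT : IsBST T) (hX : ∀ x ∈ X, x ∈ inorder T) (hE : Exec T X P c) :
    (splayCost X T : ℝ) ≤ (7 + 4 * Real.logb 2 (max 1 (2 * P.length) : ℕ)) * c := by
  classical
  set M : List ℕ := P.flatMap (fun p => [p.1, p.2]) with hM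
  have hMlen : M.length = 2 * P.length := by
    rw [hM]
    clear * -
    induction P with
    | nil => simp
    | cons p P ih => simp only [List.flatMap_cons, List.length_append, List.length_cons,
        List.length_nil, ih]; ring
  set κ : ℕ → ℕ := fun v => if v ∈ M then 0 else v + 1 with hκ
  have hcnt : ∀ q, cnt κ q T ≤ max 1 (2 * P.length) := by
    intro q
    unfold cnt
    rcases Nat.eq_zero_or_pos q with hq | hq
    · subst hq
      have h1 := filter_length_le (bst_nodup hT) (fun y => κ y = 0) M.toFinset (by
        intro v _ hv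
        rw [List.mem_toFinset]
        by_contra hcon
        simp [hκ, hcon] at hv)
      have h2 := M.toFinset_card_le
      rw [hMlen] at h2
      exact (h1.trans h2).trans (le_max_right _ _)
    · have h1 := filter_length_le (bst_nodup hT) (fun y => κ y = q) {q - 1} (by
        intro v _ hv
        rw [Finset.mem_singleton]
        simp only [hκ, decide_eq_true_eq] at hv
        split_ifs at hv <;> omega)
      rw [Finset.card_singleton] at h1
      exact h1.trans (le_max_left _ _)
  have hac : across κ P = 0 := by
    unfold across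
    rw [List.length_eq_zero_iff, List.filter_eq_nil_iff]
    intro p hp
    have h1 : p.1 ∈ M := by
      rw [hM, List.mem_flatMap]; exact ⟨p, hp, by simp⟩
    have h2 : p.2 ∈ M := by
      rw [hM, List.mem_flatMap]; exact ⟨p, hp, by simp⟩
    simp [hκ, h1, h2]
  have := cluster_bound hT hX hE hcnt
  rw [hac] at this
  push_cast at this ⊢
  linarith

/-! ## The result -/

/-- Let an execution for `(X, T)` have cost `c` and perform the rotations `P`.

1. For every labelling `κ` of the keys with at most `s` keys of each label, splaying costs at most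
   `(7 + 4 log₂ s) c + (4 + 2 log₂ s) n J`, where `n` is the number of keys of `T` and `J` the
   number of rotations in `P` at edges whose two ends have different labels.
2. If `X` contains `k` distinct keys, splaying costs at most `(4 + 4 log₂ k) c`.
3. If `P` consists of `R` rotations, splaying costs at most `(7 + 4 log₂ (max 1 (2 R))) c`. -/
theorem result (T : BinaryTree ℕ) (hT : IsBST T) (X : List ℕ) (hX : ∀ x ∈ X, x ∈ inorder T)
    (P : List (ℕ × ℕ)) (c : ℕ) (hE : Exec T X P c) :
    (∀ (κ : ℕ → ℕ) (s : ℕ), (∀ q, ((inorder T).filter (fun y => κ y = q)).length ≤ s) →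
      (splayCost X T : ℝ) ≤ (7 + 4 * Real.logb 2 s) * c
        + (4 + 2 * Real.logb 2 s) * (inorder T).length
          * (P.filter (fun p => κ p.1 ≠ κ p.2)).length) ∧
    (splayCost X T : ℝ) ≤ (4 + 4 * Real.logb 2 X.toFinset.card) * c ∧
    (splayCost X T : ℝ) ≤ (7 + 4 * Real.logb 2 (max 1 (2 * P.length) : ℕ)) * c :=
  ⟨fun _ _ h => cluster_bound hT hX hE h, few_keys_bound hT hX hE, few_rotations_bound hT hX hE⟩

end Pool.Agent.Results.MP_c42954_lc.ClusteredExecutions
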