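import Pool.Agent.SplLog.Lower

set_option autoImplicit false

/-!
# The cost of splaying, changes of direction, and the cost of an arbitrary execution

The definitions `inorder`, `depth`, `splayStep`, `splay`, `splayCost`, `Rot`, `RotSeq` and `Exec`
are in `Pool.Agent.MP_c42954_lc.Scan.Defs`; `runData`, `Data.mirror`, `Data.turns`,
`Data.touchedKeys` and `Data.hidden` are in `Pool.Agent.SplLog.Stmt`.
-/

namespace Pool.Agent.Results.MP_c42954_lc.DirectionChanges

open BinaryTree Pool.Agent.MP_c42954_lc.Scan Pool.Agent.SplLog

/-- The number of changes of direction of the nodes while `X` is splayed starting from `T`, plus the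
number of requests, plus the number of touched keys. -/
noncomputable def changes (n : ℕ) (T : BinaryTree ℕ) (X : List ℕ) : ℕ :=
  (runData n T X).turns + X.length + (runData n T X).touchedKeys

/-- The number of hidden changes of direction, from right to left and from left to right. -/
noncomputable def hiddenChanges (n : ℕ) (T : BinaryTree ℕ) (X : List ℕ) : ℕ :=
  (runData n T X).hidden + ((runData n T X).mirror (n + 1)).hidden

/-- **The cost of splaying and the changes of direction.**  There is an absolute constant `C` such
that for every search tree `T` on the keys `1, ..., n` (`n ≥ 3`) and every sequence `X` of requests,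
the cost of splaying `X` starting from `T` is at least `changes n T X / 2` and at most
`C (log log n)³ changes n T X`; and for every execution for `(X, T)`, of cost `c` say,
`changes n T X` is at most `18 c` plus the number of hidden changes of direction. -/
theorem result : ∃ C : ℝ, 0 < C ∧ ∀ (n : ℕ) (T : BinaryTree ℕ) (X : List ℕ), 3 ≤ n →
    inorder T = List.range' 1 n → (∀ x ∈ X, x ∈ inorder T) →
    changes n T X ≤ 2 * splayCost X T ∧
    (splayCost X T : ℝ) ≤ C * Real.log (Real.log n) ^ 3 * changes n T X ∧
    ∀ c : ℕ, Exec T X c → changes n T X ≤ 18 * c + hiddenChanges n T X := by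
  obtain ⟨C, hC, h⟩ := final
  refine ⟨C, hC, fun n T X hn hT hX => ⟨lower hT hX, ?_, ?_⟩⟩
  · have h1 := (h n T X hn hT hX).1
    unfold changes
    push_cast
    exact h1
  · intro c hE
    obtain ⟨g1, g2, g3⟩ := final_exec hT hX hE
    unfold changes hiddenChanges
    omega

end Pool.Agent.Results.MP_c42954_lc.DirectionChanges
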