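import Pool.Agent.SplPl.Main

set_option autoImplicit false

/-!
# Splay trees are polyloglog-competitive

The definitions `inorder`, `IsBST`, `depth`, `splayStep`, `splay`, `splayCost`, `Rot`, `RotSeq` and
`Exec` are in `Pool.Agent.MP_c42954_lc.Scan.Defs`.
-/

namespace Pool.Agent.Results.MP_c42954_lc.PolyloglogRatio

open BinaryTree Pool.Agent.MP_c42954_lc.Scan

/-- **The competitive ratio of splay trees is polynomial in `log log n`.** There is an absolute
constant `C` such that for every search tree `T` with `n ≥ 3` keys, every sequence `X` of requests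
to keys of `T` and every execution for `(X, T)`, of cost `c` say, the cost of splaying `X` starting
from `T` is at most `C (log log n) ^ 7 c`.  There is no additive term. -/
theorem result : ∃ C : ℝ, 0 < C ∧ ∀ (T : BinaryTree ℕ) (X : List ℕ) (c : ℕ), IsBST T →
    (∀ x ∈ X, x ∈ inorder T) → 3 ≤ (inorder T).length → Exec T X c →
    (splayCost X T : ℝ) ≤ C * Real.log (Real.log (inorder T).length) ^ 7 * c :=
  Pool.Agent.SplPl.polyloglog_competitive

end Pool.Agent.Results.MP_c42954_lc.PolyloglogRatio
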