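import Pool.Agent.SplRM.Few

set_option autoImplicit false

/-!
# Splaying against root moves and local restructuring

See `Pool.Agent.SplRM.Defs` for the definitions.
-/

namespace Pool.Agent.Results.MP_c42954_lc.RootMoves

open Pool.Agent.SplRM

/-- Splaying costs at most six times the search cost of the rule `move to root`.  More generally,
let an execution for `(X, T)` consist, at each request `x`, of root moves of `x`, which are free,
and of further rotations, recorded in `P`; let `c` be its cost.

1. For every labelling `κ` of the keys with at most `s` keys of each label, splaying costs at most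
   `(6 + 4 log₂ s) c + (4 + 2 log₂ s) n J`, where `n` is the number of keys of `T` and `J` the
   number of rotations in `P` at edges whose two ends have different labels.
2. If `X` contains `k` distinct keys, splaying costs at most `(4 + 4 log₂ k) c`.
3. If `P` consists of `R` rotations, splaying costs at most `(6 + 4 log₂ (max 1 (2 R))) c`;
   in particular at most `6 c` if there are no rotations besides the root moves. -/
theorem result (T : BinaryTree ℕ) (hT : IsBST T) (X : List ℕ) (hX : ∀ x ∈ X, x ∈ inorder T) :
    splayCost X T ≤ 6 * rootCost X T ∧
    ∀ (P : List (ℕ × ℕ)) (c : ℕ), Exec T X P c →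
      (∀ (κ : ℕ → ℕ) (s : ℕ), (∀ q, ((inorder T).filter (fun y => κ y = q)).length ≤ s) →
        (splayCost X T : ℝ) ≤ (6 + 4 * Real.logb 2 s) * c
          + (4 + 2 * Real.logb 2 s) * (inorder T).length
            * (P.filter (fun p => κ p.1 ≠ κ p.2)).length) ∧
      (splayCost X T : ℝ) ≤ (4 + 4 * Real.logb 2 X.toFinset.card) * c ∧
      (splayCost X T : ℝ) ≤ (6 + 4 * Real.logb 2 (max 1 (2 * P.length) : ℕ)) * c := by
  refine ⟨splay_le_root hT hX, fun P c hE => ⟨?_, few_keys hT hX hE, few_rotations hT hX hE⟩⟩
  intro κ s h
  have h' : ∀ q, ((inorder T).filter (fun y => decide (κ y = q))).length ≤ s := h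
  have := clusters (κ := κ) (s := s) hT hX hE (by
    intro q
    convert h' q)
  unfold across at this
  convert this using 6

end Pool.Agent.Results.MP_c42954_lc.RootMoves
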